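import Mathlib

/-!
# Sets of the second category relative to a closed set
-/

set_option autoImplicit false

open Set Filter Topology TopologicalSpace

namespace Pool.Agent.H751.HSO

variable {Y : Type} [MetricSpace Y]

/-- Relative to `P`, the set `A` is of the second category in every nonempty open piece of `B`, in
the form of Baire's theorem. -/
def Big (P A B : Set Y) : Prop :=
  IsOpen B ∧ (B ∩ P).Nonempty ∧ ∀ B' : Set Y, IsOpen B' → B' ⊆ B → (B' ∩ P).Nonempty →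
    ∀ C : ℕ → Set Y, (∀ j, IsClosed (C j ∩ P)) → (∀ v ∈ B' ∩ P, v ∈ A → ∃ j, v ∈ C j) →
      ∃ j, ∃ B'' : Set Y, IsOpen B'' ∧ B'' ⊆ B' ∧ (B'' ∩ P).Nonempty ∧ B'' ∩ P ⊆ C j

theorem Big.mono {P A A' B : Set Y} (h : Big P A B) (hA : ∀ v ∈ B ∩ P, v ∈ A → v ∈ A') :
    Big P A' B := by
  refine ⟨h.1, h.2.1, fun B' h1 h2 h3 C h4 h5 => h.2.2 B' h1 h2 h3 C h4 ?_⟩
  exact fun v hv hvA => h5 v hv (hA v ⟨h2 hv.1, hv.2⟩ hvA)

theorem Big.sub {P A B B' : Set Y} (h : Big P A B) (hB' : IsOpen B') (hs : B' ⊆ B)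
    (hn : (B' ∩ P).Nonempty) : Big P A B' :=
  ⟨hB', hn, fun B2 h1 h2 h3 C h4 h5 => h.2.2 B2 h1 (h2.trans hs) h3 C h4 h5⟩

theorem Big.closed {P A B C : Set Y} (h : Big P A B) (hC : IsClosed (C ∩ P))
    (hA : ∀ v ∈ B ∩ P, v ∈ A → v ∈ C) : B ∩ P ⊆ C := by
  intro v hv
  by_contra hvC
  have hopen : IsOpen (B \ (C ∩ P)) := h.1.sdiff hC
  obtain ⟨j, B'', h1, h2, ⟨w, hw⟩, h3⟩ := h.2.2 (B \ (C ∩ P)) hopen sdiff_subset
    ⟨v, ⟨hv.1, fun hc => hvC hc.1⟩, hv.2⟩ (fun _ => C) (fun _ => hC)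
    (fun v hv hvA => ⟨0, hA v ⟨hv.1.1, hv.2⟩ hvA⟩)
  exact (h2 hw.1).2 ⟨h3 hw, hw.2⟩

theorem banach [CompleteSpace Y] [SecondCountableTopology Y] {P B0 : Set Y} (hP : IsClosed P)
    (hB0 : IsOpen B0) (hne : (B0 ∩ P).Nonempty) {ι : Type} [Countable ι] (A : ι → Set Y)
    (hA : ∀ v ∈ B0 ∩ P, ∃ i, v ∈ A i) :
    ∃ i, ∃ B ∈ countableBasis Y, B ⊆ B0 ∧ Big P (A i) B := by
  classical
  have hPcs : CompleteSpace P := hP.completeSpace_coe
  set B0' : Set P := Subtype.val ⁻¹' B0 with hB0'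
  have hB0'o : IsOpen B0' := hB0.preimage continuous_subtype_val
  have hB0'n : B0'.Nonempty := by
    obtain ⟨v, hv, hvP⟩ := hne
    exact ⟨⟨v, hvP⟩, hv⟩
  have hnm : ¬ IsMeagre B0' := not_isMeagre_of_isOpen hB0'o hB0'n
  obtain ⟨i, hi⟩ : ∃ i, ¬ IsMeagre ((Subtype.val ⁻¹' (A i) : Set P) ∩ B0') := by
    by_contra hcon
    push Not at hcon
    apply hnm
    refine (isMeagre_iUnion hcon).mono ?_
    intro v hv
    obtain ⟨i, hi⟩ := hA v ⟨hv, v.2⟩
    exact mem_iUnion.2 ⟨i, hi, hv⟩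
  set A' : Set P := (Subtype.val ⁻¹' (A i) : Set P) with hA'
  -- the small open sets
  set I : Set (Set P) := {u | u ∈ countableBasis P ∧ IsMeagre (A' ∩ u)} with hI
  have hIc : I.Countable := (countable_countableBasis P).mono fun u hu => hu.1
  set W : Set P := ⋃ u ∈ I, u with hW
  have hWo : IsOpen W := isOpen_biUnion fun u hu => isOpen_of_mem_countableBasis hu.1
  have hWm : IsMeagre (A' ∩ W) := by
    rw [hW, inter_iUnion₂]
    exact isMeagre_biUnion hIc fun u hu => hu.2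
  have hcl : ¬ B0' ⊆ closure W := by
    intro hsub
    apply hi
    have h1 : A' ∩ B0' ⊆ (A' ∩ W) ∪ (closure W \ W) := by
      rintro v ⟨hv1, hv2⟩
      by_cases hvW : v ∈ W
      · exact Or.inl ⟨hv1, hvW⟩
      · exact Or.inr ⟨hsub hv2, hvW⟩
    refine (hWm.union ?_).mono h1
    refine IsNowhereDense.isMeagre ?_
    have h2 : closure W \ W = frontier W := by rw [hWo.frontier_eq]
    rw [h2, IsNowhereDense, isClosed_frontier.closure_eq]
    rw [← frontier_compl]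
    exact interior_frontier hWo.isClosed_compl
  obtain ⟨v0, hv0, hv0W⟩ := not_subset.1 hcl
  obtain ⟨U', hU'o, hU'⟩ := isOpen_induced_iff.1 (isClosed_closure (s := W)).isOpen_compl
  have hv0U : (v0 : Y) ∈ U' ∩ B0 := by
    refine ⟨?_, hv0⟩
    have : v0 ∈ (Subtype.val ⁻¹' U' : Set P) := by rw [hU']; exact hv0W
    exact this
  obtain ⟨B, hB, hv0B, hBs⟩ := (isBasis_countableBasis Y).mem_nhds_iff.1
    ((hU'o.inter hB0).mem_nhds hv0U)
  have hBo : IsOpen B := isOpen_of_mem_countableBasis hB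
  -- every open piece is of the second category
  have hkey : ∀ V : Set P, IsOpen V → V.Nonempty → V ⊆ Subtype.val ⁻¹' B → ¬ IsMeagre (A' ∩ V) := by
    intro V hV hVn hVB hm
    obtain ⟨v, hv⟩ := hVn
    obtain ⟨u, hu, hvu, huV⟩ := (isBasis_countableBasis P).mem_nhds_iff.1 (hV.mem_nhds hv)
    have huI : u ∈ I := ⟨hu, hm.mono (inter_subset_inter_right _ huV)⟩
    have hvW : v ∈ closure W := subset_closure (mem_biUnion huI hvu)
    have h1 : v ∈ (Subtype.val ⁻¹' U' : Set P) := (hBs (hVB hv)).1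
    rw [hU'] at h1
    exact h1 hvW
  refine ⟨i, B, hB, fun v hv => (hBs hv).2, hBo, ⟨v0, hv0B, v0.2⟩, ?_⟩
  intro B' hB'o hB'B hB'n C hC hAC
  set V : Set P := Subtype.val ⁻¹' B' with hV
  have hVo : IsOpen V := hB'o.preimage continuous_subtype_val
  have hVn : V.Nonempty := by
    obtain ⟨v, hv, hvP⟩ := hB'n
    exact ⟨⟨v, hvP⟩, hv⟩
  have hVm := hkey V hVo hVn (preimage_mono hB'B)
  obtain ⟨j, hj⟩ : ∃ j, ¬ IsMeagre ((Subtype.val ⁻¹' (C j) : Set P) ∩ V) := by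
    by_contra hcon
    push Not at hcon
    apply hVm
    refine (isMeagre_iUnion hcon).mono ?_
    rintro v ⟨hv, hvV⟩
    obtain ⟨j, hj⟩ := hAC v ⟨hvV, v.2⟩ hv
    exact mem_iUnion.2 ⟨j, hj, hvV⟩
  have hCc : IsClosed (Subtype.val ⁻¹' (C j) : Set P) := by
    have h1 : (Subtype.val ⁻¹' (C j) : Set P) = Subtype.val ⁻¹' (C j ∩ P) := by
      ext v
      simp
    rw [h1]
    exact (hC j).preimage continuous_subtype_val
  have hnd : ¬ IsNowhereDense ((Subtype.val ⁻¹' (C j) : Set P) ∩ V) := fun h => hj h.isMeagre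
  rw [IsNowhereDense, ← ne_eq, ← nonempty_iff_ne_empty] at hnd
  obtain ⟨z, hz⟩ := hnd
  obtain ⟨z', hz'1, hz'2⟩ := mem_closure_iff_nhds.1 (interior_subset hz) _
    (isOpen_interior.mem_nhds hz)
  obtain ⟨U3, hU3o, hU3⟩ := isOpen_induced_iff.1
    (isOpen_interior (s := closure ((Subtype.val ⁻¹' (C j) : Set P) ∩ V)))
  refine ⟨j, U3 ∩ B', hU3o.inter hB'o, inter_subset_right, ⟨z', ⟨?_, hz'2.2⟩, z'.2⟩, ?_⟩
  · have : z' ∈ (Subtype.val ⁻¹' U3 : Set P) := by rw [hU3]; exact hz'1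
    exact this
  · rintro v ⟨⟨hv3, hvB'⟩, hvP⟩
    have h1 : (⟨v, hvP⟩ : P) ∈ (Subtype.val ⁻¹' U3 : Set P) := hv3
    rw [hU3] at h1
    have h2 := closure_mono (inter_subset_left) (interior_subset h1)
    rw [hCc.closure_eq] at h2
    exact h2

end Pool.Agent.H751.HSO
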