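import Pool.Agent.H751.HSO.Cnt

/-!
# Coverings by few classes of nearby orbits
-/

set_option autoImplicit false
set_option linter.unusedSectionVars false

open MeasureTheory Set Metric Filter Topology
open scoped ENNReal NNReal

namespace Pool.Agent.H751.HSO

open Pool.Agent.Y485.HS Pool.Agent.Y489.SP Pool.Agent.Y475.HS Pool.Agent.R775.HS
  Pool.Agent.R775.HC Pool.Agent.N512.HS Pool.Agent.N512.CC

section
variable {n : ℕ} {X : Type} [TopologicalSpace X]

/-- the orbit of `φ.symm v` under the closure of the powers of `e` contains many separated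
points, in the chart -/
def Dm {S : Type} [Group S] [TopologicalSpace S] [IsTopologicalGroup S] [MulAction S X]
    (φ : OpenPartialHomeomorph X (E n)) (e : S) (β C δ : ℝ) (v : E n) : Prop :=
  ∀ ρ : ℝ, 0 < ρ → ρ < δ → ∃ (N : ℕ) (κ : Fin N → S),
    (∀ a, κ a ∈ (Subgroup.zpowers e).topologicalClosure) ∧
    (∀ a b, a ≠ b → ρ ≤ dist (φ (κ a • φ.symm v)) (φ (κ b • φ.symm v))) ∧ ρ ^ (-β) ≤ C * N

theorem classes {S : Type} [Group S] [TopologicalSpace S] [IsTopologicalGroup S] [T2Space S]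
    [MulAction S X] {φ : OpenPartialHomeomorph X (E n)} {e s1 : S}
    (hc : IsCompact ((Subgroup.zpowers e).topologicalClosure : Set S)) {B Q P : Set (E n)}
    (hB1 : B ⊆ closedBall 0 1)
    {α β C C' δ : ℝ} (hα : 0 < α) (hC' : 0 ≤ C') (hC : 0 ≤ C)
    (hK : ∀ k ∈ (Subgroup.zpowers e).topologicalClosure, ∀ v ∈ B ∩ P, ∀ v' ∈ B ∩ P,
      dist (φ ((s1 * k) • φ.symm v)) (φ ((s1 * k) • φ.symm v')) ≤ C * dist v v' ^ α)
    (hQ : ∀ k ∈ (Subgroup.zpowers e).topologicalClosure, ∀ v ∈ Q,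
      k • φ.symm v ∈ φ.source ∧ φ (k • φ.symm v) ∈ B ∩ P)
    (hD : ∀ v ∈ Q, Dm φ e β C' δ v) {r : ℕ} (hr : 0 < r) {ρ : ℝ} (hρ : 0 < ρ) (hρδ : ρ < δ)
    (hρ2 : ρ ≤ 2) :
    ∃ (N : ℕ) (U : Fin N → Set (E n)), (N : ℝ) ≤ r * (C' * 4 ^ n * ρ ^ (β - n)) ∧
      (∀ v ∈ Q, ∃ s, v ∈ U s) ∧ ∀ s, ∀ v ∈ U s, v ∈ Q → ∀ v' ∈ U s, v' ∈ Q →
        ∃ k ∈ (Subgroup.zpowers (e ^ r)).topologicalClosure,
          ∀ h ∈ (Subgroup.zpowers e).topologicalClosure,
            dist (φ ((s1 * h) • φ.symm v)) (φ ((s1 * (h * k)) • φ.symm v')) ≤ 2 * C * ρ ^ α := by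
  classical
  set K : Subgroup S := (Subgroup.zpowers e).topologicalClosure with hKdef
  set K2 : Subgroup S := (Subgroup.zpowers (e ^ r)).topologicalClosure with hK2def
  have hem : e ∈ K := Subgroup.le_topologicalClosure _ (Subgroup.mem_zpowers e)
  have hsub : K2 ≤ K := Subgroup.topologicalClosure_minimal _
    ((Subgroup.zpowers_le).2 (Subgroup.pow_mem _ hem r)) (Subgroup.isClosed_topologicalClosure _)
  let O : E n → Set (E n) := fun v => {w | ∃ k ∈ K, φ (k • φ.symm v) = w}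
  obtain ⟨T, hTQ, hTc, hT⟩ := exists_net (ρ := ρ) (β := β) (C := C') Q O hρ hρ2 (by
    rintro v hv _ ⟨k, hk, rfl⟩
    exact hB1 (hQ k hk v hv).2.1) hC' (by
    intro v hv
    obtain ⟨N, κ, h1, h2, h3⟩ := hD v hv ρ hρ hρδ
    have hinj : Function.Injective fun a => φ (κ a • φ.symm v) := by
      intro a b hab
      by_contra hne
      have h4 := h2 a b hne
      simp only at hab
      rw [hab, dist_self] at h4
      linarith
    refine ⟨Finset.univ.image fun a => φ (κ a • φ.symm v), ?_, ?_, ?_⟩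
    · intro w hw
      simp only [Finset.coe_image, Finset.coe_univ, image_univ, mem_range] at hw
      obtain ⟨a, rfl⟩ := hw
      exact ⟨κ a, h1 a, rfl⟩
    · intro t ht t' ht' hne
      simp only [Finset.mem_image, Finset.mem_univ, true_and] at ht ht'
      obtain ⟨a, rfl⟩ := ht
      obtain ⟨b, rfl⟩ := ht'
      exact h2 a b fun h => hne (by rw [h])
    · rw [Finset.card_image_of_injective _ hinj, Finset.card_univ, Fintype.card_fin]
      exact h3)
  let cl : (↥T) × Fin r → Set (E n) := fun q => {v | ∃ c1 ∈ K, ∃ c2 ∈ K,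
    dist (φ (c1 • φ.symm v)) (φ (c2 • φ.symm (q.1 : E n))) < ρ ∧
      ∃ k ∈ K2, c2⁻¹ * c1 = e ^ (q.2 : ℕ) * k}
  let eq : Fin (Fintype.card ((↥T) × Fin r)) ≃ (↥T) × Fin r := (Fintype.equivFin _).symm
  refine ⟨Fintype.card ((↥T) × Fin r), fun s => cl (eq s), ?_, ?_, ?_⟩
  · rw [Fintype.card_prod, Fintype.card_coe, Fintype.card_fin]
    push_cast
    rw [mul_comm]
    exact mul_le_mul_of_nonneg_left hTc (Nat.cast_nonneg _)
  · intro v hv
    obtain ⟨t, ht, _, ⟨c1, h1, rfl⟩, _, ⟨c2, h2, rfl⟩, h3⟩ := hT v hv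
    obtain ⟨a, ha, k, hk, h4⟩ := coset_pow hc hr (K.mul_mem (K.inv_mem h2) h1)
    refine ⟨eq.symm (⟨t, ht⟩, ⟨a, ha⟩), ?_⟩
    show v ∈ cl (eq (eq.symm (⟨t, ht⟩, ⟨a, ha⟩)))
    rw [Equiv.apply_symm_apply]
    exact ⟨c1, h1, c2, h2, h3, k, hk, h4⟩
  · intro s v hv hvQ v' hv' hvQ'
    obtain ⟨c1, h1, c2, h2, h3, k, hk, h4⟩ := hv
    obtain ⟨c1', h1', c2', h2', h3', k', hk', h4'⟩ := hv'
    set t : E n := ((eq s).1 : E n) with ht
    have htQ : t ∈ Q := hTQ (eq s).1.2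
    have hkk : (c2⁻¹ * c1)⁻¹ * (c2'⁻¹ * c1') = k⁻¹ * k' := by
      rw [h4, h4']
      group
    refine ⟨(c2⁻¹ * c1)⁻¹ * (c2'⁻¹ * c1'), by rw [hkk]; exact K2.mul_mem (K2.inv_mem hk) hk', ?_⟩
    intro h hh
    have key : ∀ (d1 d2 : S) (w : E n), d1 ∈ K → d2 ∈ K → w ∈ Q →
        dist (φ (d1 • φ.symm w)) (φ (d2 • φ.symm t)) < ρ → ∀ m ∈ K,
        dist (φ ((s1 * (m * d1)) • φ.symm w)) (φ ((s1 * (m * d2)) • φ.symm t)) ≤ C * ρ ^ α := by
      intro d1 d2 w hd1 hd2 hw hdist m hm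
      have e1 := hK m hm _ (hQ d1 hd1 w hw).2 _ (hQ d2 hd2 t htQ).2
      rw [φ.left_inv (hQ d1 hd1 w hw).1, φ.left_inv (hQ d2 hd2 t htQ).1, smul_smul, smul_smul,
        mul_assoc, mul_assoc] at e1
      refine e1.trans (mul_le_mul_of_nonneg_left ?_ hC)
      exact Real.rpow_le_rpow dist_nonneg hdist.le hα.le
    have a1 := key c1 c2 v h1 h2 hvQ h3 (h * c1⁻¹) (K.mul_mem hh (K.inv_mem h1))
    have a2 := key c1' c2' v' h1' h2' hvQ' h3' (h * ((c2⁻¹ * c1)⁻¹ * c2'⁻¹))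
      (K.mul_mem hh (K.mul_mem (K.inv_mem (K.mul_mem (K.inv_mem h2) h1)) (K.inv_mem h2')))
    have b1 : h * c1⁻¹ * c1 = h := by group
    have b2 : h * c1⁻¹ * c2 = h * ((c2⁻¹ * c1)⁻¹ * c2'⁻¹) * c2' := by group
    have b3 : h * ((c2⁻¹ * c1)⁻¹ * c2'⁻¹) * c1' = h * ((c2⁻¹ * c1)⁻¹ * (c2'⁻¹ * c1')) := by group
    rw [b1, b2] at a1
    rw [b3] at a2
    have a3 := dist_triangle_right (φ ((s1 * h) • φ.symm v))
      (φ ((s1 * (h * ((c2⁻¹ * c1)⁻¹ * (c2'⁻¹ * c1')))) • φ.symm v'))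
      (φ ((s1 * (h * ((c2⁻¹ * c1)⁻¹ * c2'⁻¹) * c2')) • φ.symm t))
    linarith

/-- a closed condition passes to the closure of the powers -/
theorem clo {S : Type} [Group S] [TopologicalSpace S] [IsTopologicalGroup S]
    [MulAction S X] [ContinuousSMul S X] {φ : OpenPartialHomeomorph X (E n)} {g : S} {Y : Type}
    [TopologicalSpace Y] {G : E n → Y} (hG : ContinuousOn G (closedBall 0 4))
    (hs : Small φ ((Subgroup.zpowers g).topologicalClosure : Set S)) {v : E n}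
    (hv : v ∈ closedBall (0 : E n) 2) {C : Set Y} (hC : IsClosed C)
    (h : ∀ i : ℤ, G (φ (g ^ i • φ.symm v)) ∈ C) {k : S}
    (hk : k ∈ (Subgroup.zpowers g).topologicalClosure) : G (φ (k • φ.symm v)) ∈ C := by
  set K : Subgroup S := (Subgroup.zpowers g).topologicalClosure with hKdef
  have hv4 : v ∈ closedBall (0 : E n) 4 := closedBall_subset_closedBall (by norm_num) hv
  have hmem : ∀ q ∈ K, φ (q • φ.symm v) ∈ closedBall (0 : E n) 4 := by
    intro q hq
    have h1 := (hs.2 q hq v hv4).2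
    rw [mem_closedBall] at hv ⊢
    calc dist (φ (q • φ.symm v)) 0 ≤ dist (φ (q • φ.symm v)) v + dist v 0 := dist_triangle _ _ _
      _ ≤ 4 := by linarith
  have hcont : ContinuousOn (fun q : S => G (φ (q • φ.symm v))) (K : Set S) := by
    refine hG.comp ?_ fun q hq => hmem q hq
    refine φ.continuousOn.comp ?_ fun q hq => (hs.2 q hq v hv4).1
    have hc : Continuous (fun q : S => q • φ.symm v) := by fun_prop
    exact hc.continuousOn
  have hcl : IsClosed ((K : Set S) ∩ (fun q : S => G (φ (q • φ.symm v))) ⁻¹' C) :=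
    hcont.preimage_isClosed_of_isClosed (Subgroup.isClosed_topologicalClosure _) hC
  have hsub : (K : Set S) ⊆ (K : Set S) ∩ (fun q : S => G (φ (q • φ.symm v))) ⁻¹' C := by
    have h1 : (Subgroup.zpowers g : Set S) ⊆
        (K : Set S) ∩ (fun q : S => G (φ (q • φ.symm v))) ⁻¹' C := by
      rintro _ ⟨i, rfl⟩
      exact ⟨Subgroup.le_topologicalClosure _ (Subgroup.zpow_mem_zpowers g i), h i⟩
    have h2 := closure_minimal h1 hcl
    rwa [← Subgroup.topologicalClosure_coe] at h2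
  exact (hsub hk).2

/-- the points of a small orbit -/
theorem zp_mem {S : Type} [Group S] [TopologicalSpace S] [IsTopologicalGroup S]
    [MulAction S X] {φ : OpenPartialHomeomorph X (E n)} {g : S}
    (hs : Small φ ((Subgroup.zpowers g).topologicalClosure : Set S)) {v : E n}
    (hv : v ∈ closedBall (0 : E n) 2) {k : S}
    (hk : k ∈ (Subgroup.zpowers g).topologicalClosure) :
    φ (k • φ.symm v) ∈ closedBall (0 : E n) 3 ∧ φ.symm (φ (k • φ.symm v)) = k • φ.symm v := by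
  have hv4 : v ∈ closedBall (0 : E n) 4 := closedBall_subset_closedBall (by norm_num) hv
  obtain ⟨h0, h1⟩ := hs.2 k hk v hv4
  refine ⟨?_, φ.left_inv h0⟩
  rw [mem_closedBall] at hv ⊢
  calc dist (φ (k • φ.symm v)) 0 ≤ dist (φ (k • φ.symm v)) v + dist v 0 := dist_triangle _ _ _
    _ ≤ 3 := by linarith

theorem clo_inv {S : Type} [Group S] [TopologicalSpace S] [IsTopologicalGroup S]
    [MulAction S X] [ContinuousSMul S X] {φ : OpenPartialHomeomorph X (E n)} {g : S}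
    {F : E n → E n} (hF : ContinuousOn F (closedBall 0 4))
    (hinv : ∀ v ∈ closedBall (0 : E n) 3, F (φ (g • φ.symm v)) = F v)
    (hs : Small φ ((Subgroup.zpowers g).topologicalClosure : Set S)) {v : E n}
    (hv : v ∈ closedBall (0 : E n) 2) {k : S}
    (hk : k ∈ (Subgroup.zpowers g).topologicalClosure) : F (φ (k • φ.symm v)) = F v := by
  have hz : ∀ i : ℤ, g ^ i ∈ (Subgroup.zpowers g).topologicalClosure := fun i =>
    Subgroup.le_topologicalClosure _ (Subgroup.zpow_mem_zpowers g i)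
  have hstep : ∀ i : ℤ, F (φ (g ^ (i + 1) • φ.symm v)) = F (φ (g ^ i • φ.symm v)) := by
    intro i
    obtain ⟨h1, h2⟩ := zp_mem hs hv (hz i)
    have h3 := hinv _ h1
    rw [h2, smul_smul, ← zpow_one_add, add_comm] at h3
    exact h3
  have h0 : F (φ (g ^ (0 : ℤ) • φ.symm v)) = F v := by
    rw [zpow_zero, one_smul, φ.right_inv (hs.1 (closedBall_subset_closedBall (by norm_num) hv))]
  have hall : ∀ i : ℤ, F (φ (g ^ i • φ.symm v)) = F v := by
    intro i
    induction i using Int.induction_on with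
    | zero => exact h0
    | succ j ih => rw [hstep, ih]
    | pred j ih =>
      have h1 := hstep (-(j : ℤ) - 1)
      rw [sub_add_cancel] at h1
      rw [← h1, ih]
  exact clo hF hs hv isClosed_singleton (C := {F v}) (fun i => hall i) hk

theorem clo_tw {S : Type} [Group S] [TopologicalSpace S] [IsTopologicalGroup S]
    [MulAction S X] [ContinuousSMul S X] {φ : OpenPartialHomeomorph X (E n)} {g : S} {m : ℕ}
    {ω : ℂ} (hω : ‖ω‖ = 1)
    {Ψ : Fin m → E n → ℂ} (hΨ : ∀ i, ContinuousOn (Ψ i) (closedBall 0 4))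
    (hinv : ∀ i, ∀ v ∈ closedBall (0 : E n) 3, Ψ i (φ (g • φ.symm v)) = ω * Ψ i v)
    (hs : Small φ ((Subgroup.zpowers g).topologicalClosure : Set S)) {v : E n}
    (hv : v ∈ closedBall (0 : E n) 2) {k : S}
    (hk : k ∈ (Subgroup.zpowers g).topologicalClosure) :
    ∃ ζ : ℂ, ∀ i, Ψ i (φ (k • φ.symm v)) = ζ * Ψ i v := by
  have hω0 : ω ≠ 0 := by
    intro h
    rw [h, norm_zero] at hω
    exact zero_ne_one hω
  have hz : ∀ i : ℤ, g ^ i ∈ (Subgroup.zpowers g).topologicalClosure := fun i =>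
    Subgroup.le_topologicalClosure _ (Subgroup.zpow_mem_zpowers g i)
  let G : E n → (Fin m → ℂ) := fun v i => Ψ i v
  have hG : ContinuousOn G (closedBall 0 4) := continuousOn_pi.2 hΨ
  have hstep : ∀ i : ℤ, G (φ (g ^ (i + 1) • φ.symm v)) = ω • G (φ (g ^ i • φ.symm v)) := by
    intro i
    obtain ⟨h1, h2⟩ := zp_mem hs hv (hz i)
    ext1 j
    have h3 := hinv j _ h1
    rw [h2, smul_smul, ← zpow_one_add, add_comm] at h3
    exact h3
  have h0 : G (φ (g ^ (0 : ℤ) • φ.symm v)) = G v := by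
    rw [zpow_zero, one_smul, φ.right_inv (hs.1 (closedBall_subset_closedBall (by norm_num) hv))]
  have hall : ∀ i : ℤ, G (φ (g ^ i • φ.symm v)) = ω ^ i • G v := by
    intro i
    induction i using Int.induction_on with
    | zero => rw [h0, zpow_zero, one_smul]
    | succ j ih => rw [hstep, ih, smul_smul, zpow_add_one₀ hω0, mul_comm]
    | pred j ih =>
      have h1 := hstep (-(j : ℤ) - 1)
      rw [sub_add_cancel, ih] at h1
      rw [zpow_sub_one₀ hω0, mul_comm, mul_smul, h1, smul_smul, inv_mul_cancel₀ hω0, one_smul]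
  set C : Set (Fin m → ℂ) := (fun ζ : ℂ => ζ • G v) '' sphere 0 1 with hC
  have hCc : IsClosed C := by
    refine ((isCompact_sphere (0 : ℂ) 1).image ?_).isClosed
    fun_prop
  have h1 := clo hG hs hv hCc (fun i => ⟨ω ^ i, by simp [hω], (hall i).symm⟩) hk
  obtain ⟨ζ, -, hζ⟩ := h1
  exact ⟨ζ, fun i => (congrFun hζ i).symm⟩

end

end Pool.Agent.H751.HSO
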