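import Pool.Agent.H751.HSO.NV
import Pool.Graph.R_pool_sql_team_seeded_63374d34.N512.CC.E3
import Pool.Graph.R_pool_sql_team_seeded_63374d34.N512.CC.D8

/-!
# Counting large orbits
-/

set_option autoImplicit false

open MeasureTheory Set Metric Filter Topology
open scoped ENNReal NNReal

namespace Pool.Agent.H751.HSO

open Pool.Agent.Y485.HS Pool.Agent.Y489.SP Pool.Agent.Y475.HS Pool.Agent.R775.HS
  Pool.Agent.R775.HC Pool.Agent.N512.HS Pool.Agent.N512.CC

/-- separated subsets of the unit ball -/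
theorem card_sep {n : ℕ} {ρ : ℝ} (hρ : 0 < ρ) (hρ2 : ρ ≤ 2) (T : Finset (E n))
    (hT : ∀ t ∈ T, t ∈ closedBall (0 : E n) 1)
    (hs : ∀ t ∈ T, ∀ t' ∈ T, t ≠ t' → ρ ≤ dist t t') : (T.card : ℝ) ≤ (4 / ρ) ^ n := by
  set V0 : ℝ≥0∞ := (volume : Measure (E n)) (ball 0 1) with hV0
  have hV0f : V0 ≠ ∞ := measure_ball_lt_top.ne
  have hV00 : V0 ≠ 0 := (measure_ball_pos _ _ one_pos).ne'
  have hfr : Module.finrank ℝ (E n) = n := finrank_euclideanSpace_fin
  have hdis : (T : Set (E n)).PairwiseDisjoint (fun t => ball t (ρ / 2)) := by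
    intro t ht t' ht' htt
    refine ball_disjoint_ball ?_
    rw [add_halves]
    exact hs t ht t' ht' htt
  have h1 : (volume : Measure (E n)) (⋃ t ∈ T, ball t (ρ / 2)) =
      ∑ t ∈ T, (volume : Measure (E n)) (ball t (ρ / 2)) :=
    measure_biUnion_finset hdis fun t _ => measurableSet_ball
  have h2 : ∀ t ∈ T, (volume : Measure (E n)) (ball t (ρ / 2)) =
      ENNReal.ofReal ((ρ / 2) ^ n) * V0 := by
    intro t _
    rw [Measure.addHaar_ball_of_pos _ t (by positivity), hfr]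
  rw [Finset.sum_congr rfl h2, Finset.sum_const, nsmul_eq_mul] at h1
  have h3 : (⋃ t ∈ T, ball t (ρ / 2)) ⊆ ball (0 : E n) 2 := by
    intro x hx
    simp only [mem_iUnion, mem_ball, exists_prop] at hx
    obtain ⟨t, ht, hx⟩ := hx
    have h4 := hT t ht
    rw [mem_closedBall] at h4
    rw [mem_ball]
    calc dist x 0 ≤ dist x t + dist t 0 := dist_triangle _ _ _
      _ < 2 := by linarith
  have h4 := measure_mono (μ := (volume : Measure (E n))) h3
  rw [h1, Measure.addHaar_ball_of_pos _ _ (by norm_num : (0 : ℝ) < 2), hfr, ← mul_assoc] at h4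
  have h5 : (T.card : ℝ≥0∞) * ENNReal.ofReal ((ρ / 2) ^ n) ≤ ENNReal.ofReal (2 ^ n) :=
    (ENNReal.mul_le_mul_iff_left hV00 hV0f).1 h4
  rw [← ENNReal.ofReal_natCast, ← ENNReal.ofReal_mul (Nat.cast_nonneg _)] at h5
  have h6 : (T.card : ℝ) * (ρ / 2) ^ n ≤ 2 ^ n :=
    (ENNReal.ofReal_le_ofReal_iff (by positivity)).1 h5
  have h7 : (4 / ρ) ^ n * (ρ / 2) ^ n = 2 ^ n := by
    rw [← mul_pow]
    congr 1
    field_simp
    norm_num
  rw [← h7] at h6
  exact le_of_mul_le_mul_right h6 (by positivity)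

/-- a net of points whose orbits are far from each other -/
theorem exists_net {n : ℕ} {ι : Type} (Q : Set ι) (O : ι → Set (E n)) {ρ β C : ℝ} (hρ : 0 < ρ)
    (hρ2 : ρ ≤ 2) (hO : ∀ x ∈ Q, O x ⊆ closedBall 0 1)
    (hC : 0 ≤ C)
    (hT : ∀ x ∈ Q, ∃ T : Finset (E n), (T : Set (E n)) ⊆ O x ∧
      (∀ t ∈ T, ∀ t' ∈ T, t ≠ t' → ρ ≤ dist t t') ∧ ρ ^ (-β) ≤ C * T.card) :
    ∃ S : Finset ι, (S : Set ι) ⊆ Q ∧ (S.card : ℝ) ≤ C * 4 ^ n * ρ ^ (β - n) ∧
      ∀ x ∈ Q, ∃ s ∈ S, ∃ a ∈ O x, ∃ b ∈ O s, dist a b < ρ := by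
  classical
  have hpos : ∀ z : ℝ, 0 < ρ ^ z := fun z => Real.rpow_pos_of_pos hρ z
  let Good : Finset ι → Prop := fun S => (S : Set ι) ⊆ Q ∧
    ∀ s ∈ S, ∀ s' ∈ S, s ≠ s' → ∀ a ∈ O s, ∀ b ∈ O s', ρ ≤ dist a b
  have hbound : ∀ S, Good S → (S.card : ℝ) ≤ C * 4 ^ n * ρ ^ (β - n) := by
    intro S ⟨hSQ, hS⟩
    choose! T hT1 hT2 hT3 using hT
    have hdis : ∀ s ∈ S, ∀ s' ∈ S, s ≠ s' → Disjoint (T s) (T s') := by
      intro s hs s' hs' hne
      rw [Finset.disjoint_left]
      intro a ha hb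
      have h1 := hS s hs s' hs' hne a (hT1 s (hSQ hs) ha) a (hT1 s' (hSQ hs') hb)
      rw [dist_self] at h1
      linarith
    have hcard : (S.biUnion T).card = ∑ s ∈ S, (T s).card := Finset.card_biUnion hdis
    have h1 : ((S.biUnion T).card : ℝ) ≤ (4 / ρ) ^ n := by
      refine card_sep hρ hρ2 _ ?_ ?_
      · intro t ht
        obtain ⟨s, hs, hts⟩ := Finset.mem_biUnion.1 ht
        exact hO s (hSQ hs) (hT1 s (hSQ hs) hts)
      · intro t ht t' ht' hne
        obtain ⟨s, hs, hts⟩ := Finset.mem_biUnion.1 ht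
        obtain ⟨s', hs', hts'⟩ := Finset.mem_biUnion.1 ht'
        by_cases hss : s = s'
        · subst hss
          exact hT2 s (hSQ hs) t hts t' hts' hne
        · exact hS s hs s' hs' hss t (hT1 s (hSQ hs) hts) t' (hT1 s' (hSQ hs') hts')
    have h2 : (S.card : ℝ) * ρ ^ (-β) ≤ C * (4 / ρ) ^ n := by
      calc (S.card : ℝ) * ρ ^ (-β) = ∑ _s ∈ S, ρ ^ (-β) := by
            rw [Finset.sum_const, nsmul_eq_mul]
        _ ≤ ∑ s ∈ S, C * ((T s).card : ℝ) := Finset.sum_le_sum fun s hs => hT3 s (hSQ hs)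
        _ = C * ((S.biUnion T).card : ℝ) := by
            rw [hcard, ← Finset.mul_sum]
            push_cast
            rfl
        _ ≤ C * (4 / ρ) ^ n := mul_le_mul_of_nonneg_left h1 hC
    have h3 : C * (4 / ρ) ^ n = (C * 4 ^ n * ρ ^ (β - n)) * ρ ^ (-β) := by
      rw [mul_assoc, ← Real.rpow_add hρ, div_pow, show β - (n : ℝ) + -β = -(n : ℝ) by ring,
        Real.rpow_neg hρ.le, Real.rpow_natCast]
      ring
    rw [h3] at h2
    exact le_of_mul_le_mul_right h2 (hpos _)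
  let K : Set ℕ := {k | ∃ S, Good S ∧ S.card = k}
  have hK0 : K.Nonempty := ⟨0, ∅, ⟨by simp, by simp⟩, by simp⟩
  have hKb : BddAbove K := by
    obtain ⟨N, hN⟩ := exists_nat_ge (C * 4 ^ n * ρ ^ (β - n))
    refine ⟨N, ?_⟩
    rintro _ ⟨S, hS, rfl⟩
    exact_mod_cast (hbound S hS).trans hN
  obtain ⟨S, hS, hSc⟩ := Nat.sSup_mem hK0 hKb
  refine ⟨S, hS.1, hbound S hS, ?_⟩
  intro x hx
  by_contra hcon
  push Not at hcon
  obtain ⟨T, hT1, hT2, hT3⟩ := hT x hx
  have hTne : T.Nonempty := by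
    rw [Finset.nonempty_iff_ne_empty]
    intro h
    rw [h, Finset.card_empty, Nat.cast_zero, mul_zero] at hT3
    exact absurd hT3 (not_le.2 (hpos _))
  obtain ⟨t, ht⟩ := hTne
  have hxS : x ∉ S := by
    intro h
    have := hcon x h t (hT1 ht) t (hT1 ht)
    rw [dist_self] at this
    linarith
  have hgood : Good (insert x S) := by
    refine ⟨?_, ?_⟩
    · rw [Finset.coe_insert]
      exact insert_subset hx hS.1
    · intro s hs s' hs' hne a ha b hb
      rw [Finset.mem_insert] at hs hs'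
      rcases hs with rfl | hs
      · rcases hs' with rfl | hs'
        · exact absurd rfl hne
        · exact hcon s' hs' a ha b hb
      · rcases hs' with rfl | hs'
        · rw [dist_comm]
          exact hcon s hs b hb a ha
        · exact hS.2 s hs s' hs' hne a ha b hb
  have h1 : (insert x S).card ∈ K := ⟨_, hgood, rfl⟩
  have h2 := le_csSup hKb h1
  rw [← hSc, Finset.card_insert_of_notMem hxS] at h2
  omega

/-- the cosets of a power -/
theorem coset_pow {S : Type} [Group S] [TopologicalSpace S] [IsTopologicalGroup S]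
    [T2Space S] {e : S} (hc : IsCompact ((Subgroup.zpowers e).topologicalClosure : Set S)) {r : ℕ}
    (hr : 0 < r) {c : S} (hcm : c ∈ (Subgroup.zpowers e).topologicalClosure) :
    ∃ a < r, ∃ k ∈ (Subgroup.zpowers (e ^ r)).topologicalClosure, c = e ^ a * k := by
  have hem : e ∈ (Subgroup.zpowers e).topologicalClosure :=
    Subgroup.le_topologicalClosure _ (Subgroup.mem_zpowers e)
  have hsub : (Subgroup.zpowers (e ^ r)).topologicalClosure ≤
      (Subgroup.zpowers e).topologicalClosure :=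
    Subgroup.topologicalClosure_minimal _ ((Subgroup.zpowers_le).2 (Subgroup.pow_mem _ hem r))
      (Subgroup.isClosed_topologicalClosure _)
  have hK2 : IsCompact ((Subgroup.zpowers (e ^ r)).topologicalClosure : Set S) :=
    hc.of_isClosed_subset (Subgroup.isClosed_topologicalClosure _) hsub
  set U : Set S := ⋃ a ∈ Finset.range r, (fun k => e ^ a * k) ''
    ((Subgroup.zpowers (e ^ r)).topologicalClosure : Set S) with hU
  have hUc : IsClosed U := by
    refine IsCompact.isClosed ((Finset.range r).isCompact_biUnion fun a _ => ?_)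
    exact hK2.image (continuous_const_mul _)
  have hUz : (Subgroup.zpowers e : Set S) ⊆ U := by
    rintro _ ⟨z, rfl⟩
    simp only [hU, mem_iUnion, Finset.mem_range]
    refine ⟨(z % r).toNat, ?_, (e ^ r) ^ (z / r), ?_, ?_⟩
    · have h1 := Int.emod_lt_of_pos z (show (0 : ℤ) < r by exact_mod_cast hr)
      have h2 := Int.emod_nonneg z (show (r : ℤ) ≠ 0 by exact_mod_cast hr.ne')
      omega
    · exact Subgroup.le_topologicalClosure _ (Subgroup.zpow_mem _ (Subgroup.mem_zpowers _) _)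
    · show e ^ (z % r).toNat * (e ^ r) ^ (z / r) = e ^ z
      have h2 := Int.emod_nonneg z (show (r : ℤ) ≠ 0 by exact_mod_cast hr.ne')
      rw [← zpow_natCast e (z % r).toNat, Int.toNat_of_nonneg h2, ← zpow_natCast e r, ← zpow_mul,
        ← zpow_add]
      congr 1
      exact Int.emod_add_mul_ediv z r
  have h1 : c ∈ U := by
    have h2 : ((Subgroup.zpowers e).topologicalClosure : Set S) ⊆ U := by
      rw [Subgroup.topologicalClosure_coe]
      exact closure_minimal hUz hUc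
    exact h2 hcm
  simp only [hU, mem_iUnion, Finset.mem_range] at h1
  obtain ⟨a, ha, k, hk, rfl⟩ := h1
  exact ⟨a, ha, k, hk, rfl⟩

end Pool.Agent.H751.HSO
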