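import Pool.Agent.H751.HSO.One

/-!
# Locally compact groups with large orbits
-/

set_option autoImplicit false
set_option linter.unusedSectionVars false

open MeasureTheory Set Metric Filter Topology TopologicalSpace
open scoped ENNReal NNReal

namespace Pool.Agent.H751.HSO

open Pool.Agent.Y485.HS Pool.Agent.Y489.SP Pool.Agent.Y475.HS Pool.Agent.R775.HS
  Pool.Agent.R775.HC Pool.Agent.N512.HS Pool.Agent.N512.CC
open Pool.Agent.W660.GY (NSS GY3)

section
variable {n : ℕ} {X : Type} [MetricSpace X]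

theorem clI_mem {Y S : Type} [TopologicalSpace Y] [Group S] [TopologicalSpace S]
    [IsTopologicalGroup S] [T2Space S] [MulAction S Y] [ContinuousSMul S Y] {g k : S}
    (hk : k ∈ (Subgroup.zpowers g).topologicalClosure) {x : Y}
    (hx : x ∈ closure {x : Y | InfOrbit g x}) : k • x ∈ closure {x : Y | InfOrbit g x} := by
  have hgm : g ∈ (Subgroup.zpowers g).topologicalClosure :=
    Subgroup.le_topologicalClosure _ (Subgroup.mem_zpowers g)
  have h1 : MapsTo (fun y : Y => k • y) {x : Y | InfOrbit g x} {x : Y | InfOrbit g x} := by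
    intro y hy m hm h
    apply hy m hm
    have h2 : g ^ m • k • y = k • g ^ m • y := by
      rw [smul_smul, smul_smul, ((comm_closure hgm hk).pow_left m).eq]
    have h3 : g ^ m • k • y = k • y := h
    rw [h2] at h3
    exact MulAction.injective k h3
  exact h1.closure (continuous_const_smul k) hx

/-- there are no regular points of infinite orbit -/
theorem no_inf3 (hCIRC : S_CIRC) (hn : 1 ≤ n) {S : Type} [Group S]
    [TopologicalSpace S] [IsTopologicalGroup S]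
    [CompactSpace S] [T2Space S] [TotallyDisconnectedSpace S] [MulAction S X]
    [ContinuousSMul S X] (hreg : ∀ s : S, ∃ M : ℤ, M ≠ 0 ∧ RegO n X (s ^ M)) {p : ℕ}
    (hp : p.Prime) {g : S} (hg : Tendsto (fun j : ℕ => g ^ p ^ j) atTop (𝓝 1)) {x0 : X}
    (hx0 : x0 ∈ RegA (BL n X)) : x0 ∉ closure {x : X | InfOrbit g x} := by
  classical
  intro hx0Z
  obtain ⟨φ, hφ, hxφ, hφ0, H0, hH0o, ht4, hs4⟩ := start' (stable_BL n X) (H := S) hx0
  have hH0c : IsClosed (H0 : Set S) := Subgroup.isClosed_of_isOpen H0 hH0o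
  have hb4 : ball (0 : E n) 1 ⊆ closedBall 0 4 :=
    ball_subset_closedBall.trans (closedBall_subset_closedBall (by norm_num))
  have h14 : closedBall (0 : E n) 1 ⊆ closedBall 0 4 :=
    closedBall_subset_closedBall (by norm_num)
  have hbt : ball (0 : E n) 1 ⊆ φ.target := hb4.trans ht4
  -- a power in `H0`
  obtain ⟨J, hJ⟩ : ∃ J : ℕ, g ^ p ^ J ∈ H0 :=
    (hg.eventually (hH0o.mem_nhds H0.one_mem)).exists
  obtain ⟨g1, hg1⟩ : ∃ g1, g1 = g ^ p ^ J := ⟨_, rfl⟩
  rw [← hg1] at hJ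
  have hpow : ∀ j, g1 ^ p ^ j = g ^ p ^ (J + j) := fun j => by
    rw [hg1, ← pow_mul, ← pow_add]
  have hg1t : Tendsto (fun j : ℕ => g1 ^ p ^ j) atTop (𝓝 1) := by
    have h1 := (tendsto_add_atTop_iff_nat J).2 hg
    refine h1.congr fun j => ?_
    rw [hpow, add_comm]
  set D0 : Subgroup S := (Subgroup.zpowers g1).topologicalClosure with hD0
  have hg1m : g1 ∈ D0 := Subgroup.le_topologicalClosure _ (Subgroup.mem_zpowers g1)
  have hD0H : D0 ≤ H0 := Subgroup.topologicalClosure_minimal _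
    ((Subgroup.zpowers_le).2 hJ) hH0c
  set D1 : Subgroup S := (Subgroup.zpowers (g1 ^ p)).topologicalClosure with hD1
  have hD1c : IsClosed (D1 : Set S) := Subgroup.isClosed_topologicalClosure _
  have hcD1 : CompactSpace D1 := isCompact_iff_compactSpace.1 hD1c.isCompact
  have hD1D0 : D1 ≤ D0 := Subgroup.topologicalClosure_minimal _
    ((Subgroup.zpowers_le).2 (D0.pow_mem hg1m p)) (Subgroup.isClosed_topologicalClosure _)
  have hg1g : g1 ∈ (Subgroup.zpowers g).topologicalClosure := by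
    rw [hg1]
    exact Subgroup.le_topologicalClosure _ (Subgroup.npow_mem_zpowers g _)
  have hD0g : D0 ≤ (Subgroup.zpowers g).topologicalClosure :=
    Subgroup.topologicalClosure_minimal _ ((Subgroup.zpowers_le).2 hg1g)
      (Subgroup.isClosed_topologicalClosure _)
  have hD1g : D1 ≤ (Subgroup.zpowers g).topologicalClosure := hD1D0.trans hD0g
  have hD0s : ∀ k ∈ D0, ∀ v ∈ closedBall (0 : E n) 4, k • φ.symm v ∈ φ.source :=
    fun k hk v hv => (hs4 _ (hD0H hk) v hv).1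
  have hgd0 : ∀ d ∈ D1, ∀ M : ℤ, (g1 * d) ^ M ∈ D0 := fun d hd M =>
    D0.zpow_mem (D0.mul_mem hg1m (hD1D0 hd)) M
  have hgd4 : ∀ d ∈ D1, ∀ M : ℤ, ∀ v ∈ closedBall (0 : E n) 4,
      (g1 * d) ^ M • φ.symm v ∈ φ.source := fun d hd M => hD0s _ (hgd0 d hd M)
  -- the closed set
  set P : Set (E n) := {v | v ∈ closedBall (0 : E n) 1 ∧
    φ.symm v ∈ closure {x : X | InfOrbit g x}} with hPdef
  have hPc : IsClosed P :=
    (φ.continuousOn_symm.mono (h14.trans ht4)).preimage_isClosed_of_isClosed isClosed_closedBall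
      isClosed_closure
  have hP1 : P ⊆ closedBall 0 1 := fun v hv => hv.1
  have hP4 : P ⊆ closedBall 0 4 := hP1.trans h14
  have hPZ : ∀ v ∈ ball (0 : E n) 1, v ∈ P ↔ φ.symm v ∈ closure {x : X | InfOrbit g x} :=
    fun v hv => ⟨fun h => h.2, fun h => ⟨ball_subset_closedBall hv, h⟩⟩
  have hPn : (ball (0 : E n) 1 ∩ P).Nonempty := by
    refine ⟨0, mem_ball_self one_pos, mem_closedBall_self zero_le_one, ?_⟩
    rw [← hφ0, φ.left_inv hxφ]
    exact hx0Z
  -- the elements of the coset have the same points of infinite orbit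
  have hγI : ∀ d ∈ D1, ∀ M : ℤ, M ≠ 0 → ∀ x : X, InfOrbit ((g1 * d) ^ M) x ↔ InfOrbit g x := by
    intro d hd M hM x
    rw [inf_zpow' hM]
    constructor
    · exact fun h => inf_of_mem (Subgroup.mul_mem _ hg1g (hD1g hd)) h
    · intro h
      have h1 : InfOrbit g1 x := by
        rw [hg1]
        exact inf_pow (pow_pos hp.pos J) h
      exact inf_of_mem (gen_mem hg1t hd) h1
  -- Baire
  have hcount : (countableBasis (E n)).Countable := countable_countableBasis (E n)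
  have : Countable (countableBasis (E n)) := hcount.to_subtype
  let f : (countableBasis (E n)) × (ℕ × ℚ × ℚ) × ℤ → Set D1 := fun q =>
    {d | (q.1.1 ⊆ ball 0 1 ∧ 0 < (q.2.1.2.1 : ℝ) ∧
        (n : ℝ) < (n + 2) * (q.2.1.2.1 : ℝ) + (q.2.1.2.2 : ℝ) ∧
        Big P (EB φ g1 (q.2.1.2.2 : ℝ)) q.1.1 ∧ q.2.2 ≠ 0) ∧
      ∀ v ∈ q.1.1 ∩ P, ∀ v' ∈ q.1.1 ∩ P,
        dist (φ ((g1 * (d : S)) ^ q.2.2 • φ.symm v)) (φ ((g1 * (d : S)) ^ q.2.2 • φ.symm v')) ≤
          (q.2.1.1 + 1) * dist v v' ^ (q.2.1.2.1 : ℝ)}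
  have hfc : ∀ q, IsClosed (f q) := by
    rintro ⟨⟨B, hB⟩, ⟨j, q1, q2⟩, M⟩
    by_cases hq : B ⊆ ball 0 1 ∧ 0 < (q1 : ℝ) ∧ (n : ℝ) < (n + 2) * (q1 : ℝ) + (q2 : ℝ) ∧
        Big P (EB φ g1 (q2 : ℝ)) B ∧ M ≠ 0
    · have h1 : f (⟨B, hB⟩, (j, q1, q2), M) = ⋂ (v : E n) (_ : v ∈ B ∩ P) (v' : E n)
          (_ : v' ∈ B ∩ P), {d : D1 | dist (φ ((g1 * (d : S)) ^ M • φ.symm v))
            (φ ((g1 * (d : S)) ^ M • φ.symm v')) ≤ (j + 1) * dist v v' ^ (q1 : ℝ)} := by
        ext d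
        simp only [f, mem_ofPred_eq, mem_iInter]
        exact ⟨fun h => h.2, fun h => ⟨hq, h⟩⟩
      rw [h1]
      refine isClosed_iInter fun v => isClosed_iInter fun hv => isClosed_iInter fun v' =>
        isClosed_iInter fun hv' => isClosed_le ?_ continuous_const
      have hc : ∀ v ∈ B ∩ P, Continuous (fun d : D1 => φ ((g1 * (d : S)) ^ M • φ.symm v)) := by
        intro v hv
        have hc : Continuous (fun d : D1 => (g1 * (d : S)) ^ M • φ.symm v) := by fun_prop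
        exact φ.continuousOn.comp_continuous hc fun d => hgd4 d d.2 M v (hb4 (hq.1 hv.1))
      exact (hc v hv).dist (hc v' hv')
    · have h1 : f (⟨B, hB⟩, (j, q1, q2), M) = ∅ := by
        ext d
        simp only [f, mem_ofPred_eq, mem_empty_iff_false, iff_false, not_and]
        exact fun h => (hq h).elim
      rw [h1]
      exact isClosed_empty
  have hfU : ⋃ q, f q = univ := by
    ext d
    simp only [mem_iUnion, mem_univ, iff_true]
    obtain ⟨M, hM, hregM⟩ := hreg (g1 * (d : S))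
    obtain ⟨B, hB, hB1, j, q1, q2, hq1, hqq, hbig, hj⟩ := one_big hn hp hg hφ hregM ht4
      (hgd0 d d.2 M) hD0s (hγI d d.2 M hM) hPc hP4 hPZ hPn
    exact ⟨(⟨B, hB⟩, (j, q1, q2), M), ⟨hB1, hq1, hqq, hbig, hM⟩, hj⟩
  obtain ⟨⟨⟨B, hB⟩, ⟨m, q1, q2⟩, M⟩, s0, hs0⟩ :=
    nonempty_interior_of_iUnion_of_closed (f := f) hfc hfU
  have hopen : IsOpen ((fun k : D1 => s0 * k) ⁻¹' (interior (f (⟨B, hB⟩, (m, q1, q2), M)))) :=
    isOpen_interior.preimage (continuous_const.mul continuous_id)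
  obtain ⟨U, hU⟩ := ProfiniteGrp.exist_openNormalSubgroup_sub_open_nhds_of_one hopen (by
    rw [mem_preimage, mul_one]; exact hs0)
  have hD : ∀ k ∈ U.toSubgroup, s0 * k ∈ f (⟨B, hB⟩, (m, q1, q2), M) := fun k hk =>
    interior_subset (hU hk)
  obtain ⟨⟨hB1, hq1, hqq, hbig, hM⟩, -⟩ := hD 1 U.toSubgroup.one_mem
  simp only at hB1 hq1 hqq hbig hM
  have hBo : IsOpen B := isOpen_of_mem_countableBasis hB
  have hUo : IsOpen (U.toSubgroup : Set D1) := U.isOpen'
  have hUc : IsClosed (U.toSubgroup : Set D1) := Subgroup.isClosed_of_isOpen _ hUo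
  have hcomm : ∀ a ∈ D1, ∀ b ∈ D1, Commute a b := fun a ha b hb =>
    comm_closure (hD1g ha) (hD1g hb)
  -- the subgroup of the powers
  let K : Subgroup S :=
    { carrier := {x | ∃ k : D1, k ∈ U.toSubgroup ∧ (k : S) ^ M = x}
      mul_mem' := by
        rintro _ _ ⟨a, ha, rfl⟩ ⟨b, hb, rfl⟩
        exact ⟨a * b, U.toSubgroup.mul_mem ha hb, (hcomm a a.2 b b.2).mul_zpow M⟩
      one_mem' := ⟨1, U.toSubgroup.one_mem, by simp⟩
      inv_mem' := by
        rintro _ ⟨a, ha, rfl⟩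
        exact ⟨a⁻¹, U.toSubgroup.inv_mem ha, by simp⟩ }
  have hKc : IsClosed (K : Set S) := by
    have h1 : (K : Set S) = (fun k : D1 => (k : S) ^ M) '' (U.toSubgroup : Set D1) := rfl
    rw [h1]
    have hc : Continuous (fun k : D1 => (k : S) ^ M) := by fun_prop
    exact (hUc.isCompact.image hc).isClosed
  have hKD : ∀ k ∈ K, k ∈ D1 := by
    rintro _ ⟨k, -, rfl⟩
    exact D1.zpow_mem k.2 M
  -- the Hölder estimates for the coset
  set s1 : S := (g1 * (s0 : S)) ^ M with hs1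
  have hKH : ∀ k ∈ K, ∀ v ∈ B ∩ P, ∀ v' ∈ B ∩ P,
      dist (φ ((s1 * k) • φ.symm v)) (φ ((s1 * k) • φ.symm v')) ≤
        ((m : ℝ) + 1) * dist v v' ^ (q1 : ℝ) := by
    rintro _ ⟨k, hk, rfl⟩
    have h1 := (hD k hk).2
    have h2 : (g1 * ((s0 * k : D1) : S)) ^ M = (g1 * (s0 : S)) ^ M * (k : S) ^ M := by
      rw [Subgroup.coe_mul, ← mul_assoc]
      exact (comm_closure (Subgroup.mul_mem _ hg1g (hD1g s0.2)) (hD1g k.2)).mul_zpow M
    simp only [h2] at h1
    exact h1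
  -- a power in `K`
  have hg1p : ∀ j : ℕ, g1 ^ p ^ (j + 1) ∈ D1 := by
    intro j
    rw [pow_succ', pow_mul]
    exact Subgroup.pow_mem _ (Subgroup.le_topologicalClosure _ (Subgroup.mem_zpowers _)) _
  have ht1 : Tendsto (fun j : ℕ => (⟨g1 ^ p ^ (j + 1), hg1p j⟩ : D1)) atTop (𝓝 1) := by
    rw [tendsto_subtype_rng]
    exact (tendsto_add_atTop_iff_nat 1).2 hg1t
  obtain ⟨j0, hj0⟩ := (ht1.eventually (hUo.mem_nhds U.toSubgroup.one_mem)).exists
  have heK : (g1 ^ p ^ (j0 + 1)) ^ M ∈ K := ⟨_, hj0, rfl⟩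
  set N : ℕ := p ^ (j0 + 1) * M.natAbs with hN
  have hN0 : 0 < N := Nat.mul_pos (pow_pos hp.pos _) (Int.natAbs_pos.2 hM)
  have hNK : g1 ^ N ∈ K := by
    rw [hN, pow_mul]
    rcases Int.natAbs_eq M with h | h
    · rw [h, zpow_natCast] at heK
      exact heK
    · rw [h, zpow_neg, zpow_natCast] at heK
      have := K.inv_mem heK
      rwa [inv_inv] at this
  -- a smaller piece, which is moved into `B`
  obtain ⟨v1, hv1B, hv1P⟩ := hbig.2.1
  have hmove : ∀ᶠ q : S × E n in 𝓝 ((1 : S), v1), q.1 • φ.symm q.2 ∈ φ.source ∧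
      φ (q.1 • φ.symm q.2) ∈ B := by
    have hc : ContinuousAt (fun q : S × E n => q.1 • φ.symm q.2) ((1 : S), v1) := by
      have h1 : ContinuousAt (fun q : S × E n => φ.symm q.2) ((1 : S), v1) :=
        ContinuousAt.comp (f := fun q : S × E n => q.2) (g := φ.symm)
          (φ.continuousAt_symm (hbt (hB1 hv1B))) continuousAt_snd
      exact continuousAt_fst.smul h1
    have h2 : φ.source ∩ φ ⁻¹' B ∈ 𝓝 ((1 : S) • φ.symm v1) := by
      rw [one_smul]
      refine (φ.isOpen_inter_preimage hBo).mem_nhds ⟨φ.map_target (hbt (hB1 hv1B)), ?_⟩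
      rw [mem_preimage, φ.right_inv (hbt (hB1 hv1B))]
      exact hv1B
    exact hc.eventually_mem h2
  rw [nhds_prod_eq] at hmove
  obtain ⟨W1, hW1, W2, hW2, hW12⟩ := Filter.eventually_prod_iff.1 hmove
  obtain ⟨U1, hU1⟩ := ProfiniteGrp.exist_openNormalSubgroup_sub_open_nhds_of_one
    (isOpen_interior (s := {s : S | W1 s})) (mem_interior_iff_mem_nhds.2 hW1)
  have hU1o : IsOpen (U1.toSubgroup : Set S) := U1.isOpen'
  have hNt : Tendsto (fun i : ℕ => (g1 ^ N) ^ p ^ i) atTop (𝓝 1) := by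
    have h1 := hg1t.pow N
    rw [one_pow] at h1
    refine h1.congr fun i => ?_
    rw [← pow_mul, ← pow_mul, mul_comm]
  obtain ⟨i0, hi0⟩ := (hNt.eventually (hU1o.mem_nhds U1.toSubgroup.one_mem)).exists
  set l : ℕ := N * p ^ i0 with hl
  have hl0 : 0 < l := Nat.mul_pos hN0 (pow_pos hp.pos _)
  have hel : g1 ^ l = (g1 ^ N) ^ p ^ i0 := by rw [hl, pow_mul]
  have helK : g1 ^ l ∈ K := by
    rw [hel]
    exact K.pow_mem hNK _
  have heU : g1 ^ l ∈ U1.toSubgroup := by
    rw [hel]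
    exact hi0
  have hcK : (Subgroup.zpowers (g1 ^ l)).topologicalClosure ≤ K :=
    Subgroup.topologicalClosure_minimal _ ((Subgroup.zpowers_le).2 helK) hKc
  have hcU : (Subgroup.zpowers (g1 ^ l)).topologicalClosure ≤ U1.toSubgroup :=
    Subgroup.topologicalClosure_minimal _ ((Subgroup.zpowers_le).2 heU)
      (Subgroup.isClosed_of_isOpen _ hU1o)
  have hcg : (Subgroup.zpowers (g1 ^ l)).topologicalClosure ≤
      (Subgroup.zpowers g).topologicalClosure := fun k hk => hD1g (hKD k (hcK hk))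
  have het : Tendsto (fun i : ℕ => (g1 ^ l) ^ p ^ i) atTop (𝓝 1) := by
    have h1 := hg1t.pow l
    rw [one_pow] at h1
    refine h1.congr fun i => ?_
    rw [← pow_mul, ← pow_mul, mul_comm]
  -- the piece with uniformly large orbits
  set B' : Set (E n) := B ∩ interior {v : E n | W2 v} with hB'
  have hB'o : IsOpen B' := hBo.inter isOpen_interior
  have hB'n : (B' ∩ P).Nonempty :=
    ⟨v1, ⟨hv1B, mem_interior_iff_mem_nhds.2 hW2⟩, hv1P⟩
  obtain ⟨j, B2, hB2o, hB2B', ⟨v2, hv2B, hv2P⟩, hB2D⟩ := hbig.2.2 B' hB'o inter_subset_left hB'n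
    (fun j : ℕ => {v | Dm φ (g1 ^ l) (q2 : ℝ) (j + 1) (1 / ((j : ℝ) + 1)) v})
    (fun j => dm_closed hPc (hP4.trans ht4) (fun k hk v hv =>
      hD0s k (hD1D0 (hKD k (hcK hk))) v (hP4 hv)) _ _ _)
    (fun v _ hv => hv l hl0)
  have hB2B : B2 ⊆ B := hB2B'.trans inter_subset_left
  have hB2b : B2 ⊆ ball 0 1 := hB2B.trans hB1
  have hj0 : (0 : ℝ) < 1 / ((j : ℝ) + 1) := by positivity
  obtain ⟨i, hi⟩ := local_triv hCIRC hn hp (φ := φ) (g := g) (e := g1 ^ l) (s1 := s1)
    (B := B) (B2 := B2) (P := P)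
    (hcg (Subgroup.le_topologicalClosure _ (Subgroup.mem_zpowers _))) het
    (hB1.trans ball_subset_closedBall) hB2o (hB2b.trans hbt) hq1
    (C' := (j : ℝ) + 1) (by positivity) (C := (m : ℝ) + 1) (by positivity) hj0 hqq
    (fun v hv => hgd4 _ s0.2 M v (hb4 (hB2b hv))) (fun k hk => hKH k (hcK hk)) (by
      rintro k hk v ⟨hvB, hvP⟩
      have h1 := hW12 (interior_subset (hU1 (hcU hk))) (interior_subset (hB2B' hvB).2)
      refine ⟨h1.1, h1.2, ball_subset_closedBall (hB1 h1.2), ?_⟩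
      show φ.symm (φ (k • φ.symm v)) ∈ closure {x : X | InfOrbit g x}
      rw [φ.left_inv h1.1]
      exact clI_mem (hcg hk) hvP.2) (fun v hv hvZ => ⟨ball_subset_closedBall (hB2b hv), hvZ⟩)
    (fun v hv => hB2D hv) hv2B
  -- a point of infinite orbit
  obtain ⟨x, hxt, hx⟩ := mem_closure_iff_nhds.1 hv2P.2 _ hi
  have h1 : (g1 ^ l) ^ p ^ i • x = x := hxt
  have h2 : InfOrbit g1 x := by
    rw [hg1]
    exact inf_pow (pow_pos hp.pos J) hx
  have h3 : InfOrbit (g1 ^ l) x := inf_pow hl0 h2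
  exact h3 _ (pow_pos hp.pos _) h1

theorem crit_regO (hCIRC : S_CIRC) (hn : 1 ≤ n) {S : Type} [Group S]
    [TopologicalSpace S] [IsTopologicalGroup S]
    [CompactSpace S] [T2Space S] [TotallyDisconnectedSpace S] [MulAction S X]
    [ContinuousSMul S X] (hreg : ∀ s : S, ∃ M : ℤ, M ≠ 0 ∧ RegO n X (s ^ M)) (s : S) :
    Crit (BL n X) s := by
  intro p hp hgp hcomp φ hφ hs
  obtain ⟨F0, -, -, -, h4⟩ := exists_good_inf hcomp hs
  apply h4
  intro y hy ε hε
  refine ⟨y, hy, by rwa [dist_self], ?_⟩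
  intro C hC3 _ hCZ _ v hv
  have hvt : v ∈ φ.target := hs.1 (closedBall_subset_closedBall (by norm_num) (hC3 hv))
  exact absurd (hCZ v hv) (no_inf3 hCIRC hn hreg hp hgp ⟨φ, hφ, φ.map_target hvt⟩)

/-- The Hilbert-Smith conjecture for homeomorphisms which are pointwise Hölder along the infinite
orbits, with large orbits. -/
theorem lie_large (hCIRC : S_CIRC) (hn : 1 ≤ n) (hdense : Dense (RegA (BL n X)))
    (hconn : IsPreconnected (RegA (BL n X))) {G : Type} [Group G] [TopologicalSpace G]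
    [IsTopologicalGroup G] [LocallyCompactSpace G] [MulAction G X] [ContinuousSMul G X]
    [FaithfulSMul G X] {V : Set G} (hV : V ∈ 𝓝 (1 : G))
    (hreg : ∀ g, SmallPow V g → ∃ M : ℤ, M ≠ 0 ∧ RegO n X (g ^ M)) : IsLie G := by
  have hT2 : T2Space G := by
    refine ⟨fun g h hgh => ?_⟩
    obtain ⟨x, hx⟩ : ∃ x : X, g • x ≠ h • x := by
      by_contra hall
      push Not at hall
      exact hgh (eq_of_smul_eq_smul hall)
    obtain ⟨u, v, hu, hv, hgu, hhv, huv⟩ := t2_separation hx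
    have hc : Continuous (fun g : G => g • x) := by fun_prop
    exact ⟨_, _, hu.preimage hc, hv.preimage hc, hgu, hhv, huv.preimage _⟩
  have hN : NSS G := by
    refine nss_of_Z V hV ?_
    intro S _ _ _ _ _ _ i hi hinj hiV
    let _ : MulAction S X := MulAction.compHom X i
    have _ : ContinuousSMul S X := ⟨by
      have h : Continuous (fun q : S × X => i q.1 • q.2) := by fun_prop
      exact h⟩
    have hpw : ∀ (s : S) (m : ℕ) (x : X), s ^ m • x = (i s) ^ m • x := by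
      intro s m x
      rw [← map_pow]
      rfl
    have hInf : ∀ (s : S) (x : X), InfOrbit s x ↔ InfOrbit (i s) x := by
      intro s x
      simp only [InfOrbit, hpw]
    have hregS : ∀ s : S, ∃ M : ℤ, M ≠ 0 ∧ RegO n X (s ^ M) := by
      intro s
      obtain ⟨M, hM, T, hT1, hT2, hT3⟩ := hreg (i s) (smallPow_of_hom i hi hiV s)
      rw [← map_zpow] at hT3
      refine ⟨M, hM, T, hT1, hT2, fun x hx hxI hxT => ?_⟩
      obtain ⟨α, β, h1, h2, ⟨C, δ, h3, h4⟩, h5⟩ := hT3 x hx ((hInf _ x).1 hxI) hxT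
      refine ⟨α, β, h1, h2, ⟨C, δ, h3, fun y hy hyx => h4 y ((hInf _ y).1 hy) hyx⟩, ?_⟩
      intro l hl
      obtain ⟨C', δ', h6, h7⟩ := h5 l hl
      refine ⟨C', δ', h6, fun ρ hρ hρδ => ?_⟩
      obtain ⟨T', h8, h9⟩ := h7 ρ hρ hρδ
      refine ⟨T', fun a ha b hb hab => ?_, h9⟩
      rw [hpw, hpw]
      exact h8 a ha b hb hab
    obtain ⟨K, hKo, hKt⟩ := profinite' hn (stable_BL n X) hdense hconn
      (fun s => crit_regO hCIRC hn hregS s) (fun K P _ q hq =>
        crit_of_hom (K.subtype.comp P.subtype)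
          (continuous_subtype_val.comp continuous_subtype_val) (fun _ _ => rfl) q hq)
    have hbot : K = ⊥ := by
      rw [eq_bot_iff]
      intro k hk
      rw [Subgroup.mem_bot]
      apply hinj
      refine eq_of_smul_eq_smul (α := X) fun x => ?_
      rw [map_one, one_smul]
      exact hKt k hk x
    rw [hbot] at hKo
    refine discreteTopology_of_isOpen_singleton_one ?_
    convert hKo using 1
    ext x
    simp
  obtain ⟨E, i1, i2, i3, ⟨C⟩⟩ := Pool.Agent.Y328.HS.lga G hN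
  let _ := i1
  let _ := i2
  have _ := i3
  exact Pool.Agent.Y286.HS.lgb G E C

end

end Pool.Agent.H751.HSO
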