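import Pool.Agent.H751.HSO.Cls

/-!
# The local theorem
-/

set_option autoImplicit false
set_option linter.unusedSectionVars false

open MeasureTheory Set Metric Filter Topology TopologicalSpace
open scoped ENNReal NNReal

namespace Pool.Agent.H751.HSO

open Pool.Agent.Y485.HS Pool.Agent.Y489.SP Pool.Agent.Y475.HS Pool.Agent.R775.HS
  Pool.Agent.R775.HC Pool.Agent.N512.HS Pool.Agent.N512.CC

section
variable {n : ℕ} {X : Type} [TopologicalSpace X]

/-- the coverings, in a new chart -/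
theorem cov_chart [T2Space X] {S : Type} [Group S] [TopologicalSpace S] [IsTopologicalGroup S]
    [CompactSpace S] [T2Space S] [MulAction S X] [ContinuousSMul S X] {p : ℕ} (hp : 0 < p)
    {φ : OpenPartialHomeomorph X (E n)} {g e s1 : S} (heg : e ∈ (Subgroup.zpowers g).topologicalClosure)
    {B B2 P : Set (E n)} (hB1 : B ⊆ closedBall 0 1)
    {α β C C' δ : ℝ} (hα : 0 < α) (hC' : 0 ≤ C') (hC : 0 ≤ C) (hδ : 0 < δ)
    (hK : ∀ k ∈ (Subgroup.zpowers e).topologicalClosure, ∀ v ∈ B ∩ P, ∀ v' ∈ B ∩ P,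
      dist (φ ((s1 * k) • φ.symm v)) (φ ((s1 * k) • φ.symm v')) ≤ C * dist v v' ^ α)
    (hQ : ∀ k ∈ (Subgroup.zpowers e).topologicalClosure, ∀ v ∈ B2 ∩ P,
      k • φ.symm v ∈ φ.source ∧ φ (k • φ.symm v) ∈ B ∩ P)
    (hPZ : ∀ v ∈ B2, φ.symm v ∈ closure {x : X | InfOrbit g x} → v ∈ P)
    (hD : ∀ v ∈ B2 ∩ P, Dm φ e β C' δ v) {r : ℕ} (hr : 0 < r)
    {φ' : OpenPartialHomeomorph X (E n)} (hφs : φ'.source ⊆ φ.source ∩ φ ⁻¹' B2) {L : ℝ}
    (hL0 : 0 ≤ L) (hL : ∀ a ∈ φ'.source, ∀ a' ∈ φ'.source,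
      dist (φ' a) (φ' a') ≤ L * dist (φ (s1 • a)) (φ (s1 • a')))
    (hsm : Small φ' ((Subgroup.zpowers (e ^ r)).topologicalClosure : Set S))
    {F : E n → E n} (hF1 : ContinuousOn F (closedBall 0 4))
    (hF2 : ∀ v ∈ closedBall (0 : E n) 3, F (φ' (e ^ r • φ'.symm v)) = F v)
    (hF3 : ∀ (b : ℝ), ∀ v ∈ closedBall (0 : E n) 4, ∀ v' ∈ closedBall (0 : E n) 4,
        (∀ q ∈ (Subgroup.zpowers (e ^ r)).topologicalClosure,
          dist (φ' (q • φ'.symm v)) (φ' (q • φ'.symm v')) ≤ b) → dist (F v) (F v') ≤ b)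
    {m : ℕ} {Ψ : Fin m → E n → ℂ} (hΨ1 : ∀ i, ContinuousOn (Ψ i) (closedBall 0 4))
    (hΨ2 : ∀ i, ∀ v ∈ closedBall (0 : E n) 3, Ψ i (φ' (e ^ r • φ'.symm v)) =
      Complex.exp (2 * Real.pi * Complex.I / p) * Ψ i v)
    (hΨ3 : ∀ i, ∀ (b : ℝ), ∀ v ∈ closedBall (0 : E n) 4, ∀ v' ∈ closedBall (0 : E n) 4,
        (∀ q ∈ (Subgroup.zpowers (e ^ r)).topologicalClosure,
          dist (φ' (q • φ'.symm v)) (φ' (q • φ'.symm v')) ≤ b) → dist (Ψ i v) (Ψ i v') ≤ b) :
    Cov {v | v ∈ closedBall (0 : E n) 2 ∧ φ'.symm v ∈ closure {x : X | InfOrbit g x}} F Ψ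
      (r * (C' * 4 ^ n) * (max (2 * C * L) 1) ^ ((n - β) / α)) ((n - β) / α) := by
  set C1 : ℝ := max (2 * C * L) 1 with hC1
  have hC10 : 0 < C1 := lt_of_lt_of_le one_pos (le_max_right _ _)
  set K : Subgroup S := (Subgroup.zpowers e).topologicalClosure with hKdef
  set K2 : Subgroup S := (Subgroup.zpowers (e ^ r)).topologicalClosure with hK2def
  have hem : e ∈ K := Subgroup.le_topologicalClosure _ (Subgroup.mem_zpowers e)
  have hsub : K2 ≤ K := Subgroup.topologicalClosure_minimal _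
    ((Subgroup.zpowers_le).2 (Subgroup.pow_mem _ hem r)) (Subgroup.isClosed_topologicalClosure _)
  have hKc : IsCompact (K : Set S) := (Subgroup.isClosed_topologicalClosure _).isCompact
  have h24 : closedBall (0 : E n) 2 ⊆ closedBall 0 4 :=
    closedBall_subset_closedBall (by norm_num)
  have h34 : closedBall (0 : E n) 3 ⊆ closedBall 0 4 :=
    closedBall_subset_closedBall (by norm_num)
  have ht3 : closedBall (0 : E n) 2 ⊆ φ'.target := h24.trans hsm.1
  have hτs : ∀ v ∈ closedBall (0 : E n) 2, φ'.symm v ∈ φ'.source := fun v hv =>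
    φ'.map_target (ht3 hv)
  have hτφ : ∀ v ∈ closedBall (0 : E n) 2, φ.symm (φ (φ'.symm v)) = φ'.symm v := fun v hv =>
    φ.left_inv (hφs (hτs v hv)).1
  have hε0 : 0 < C1 * (min δ 2) ^ α := by
    have : 0 < min δ 2 := lt_min hδ two_pos
    positivity
  refine ⟨C1 * (min δ 2) ^ α, hε0, ?_⟩
  intro ε hε hεε
  set ρ : ℝ := (ε / C1) ^ (1 / α) with hρdef
  have hεC : 0 < ε / C1 := by positivity
  have hρ : 0 < ρ := Real.rpow_pos_of_pos hεC _
  have hρα : ρ ^ α = ε / C1 := by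
    rw [hρdef, ← Real.rpow_mul hεC.le, one_div, inv_mul_cancel₀ hα.ne', Real.rpow_one]
  have hρmin : ρ < min δ 2 := by
    have h0 : 0 < min δ 2 := lt_min hδ two_pos
    have h1 : ρ ^ α < (min δ 2) ^ α := by
      rw [hρα, div_lt_iff₀ hC10]
      linarith
    exact (Real.rpow_lt_rpow_iff hρ.le h0.le hα).1 h1
  have hρδ : ρ < δ := lt_of_lt_of_le hρmin (min_le_left _ _)
  have hρ2 : ρ ≤ 2 := (lt_of_lt_of_le hρmin (min_le_right _ _)).le
  obtain ⟨N, U, hN, hU1, hU2⟩ := classes (Q := B2 ∩ P) hKc hB1 hα hC' hC hK hQ hD hr hρ hρδ hρ2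
  have hτQ : ∀ v ∈ closedBall (0 : E n) 2, φ'.symm v ∈ closure {x : X | InfOrbit g x} →
      φ (φ'.symm v) ∈ B2 ∩ P := by
    intro v hv hvZ
    have h1 : φ (φ'.symm v) ∈ B2 := (hφs (hτs v hv)).2
    refine ⟨h1, hPZ _ h1 ?_⟩
    rw [hτφ v hv]
    exact hvZ
  refine ⟨N, fun s => {v | φ (φ'.symm v) ∈ U s}, ?_, ?_, ?_⟩
  · refine hN.trans (le_of_eq ?_)
    have h1 : ρ ^ (β - n) = C1 ^ ((n - β) / α) * ε ^ (-((n - β) / α)) := by
      rw [hρdef, ← Real.rpow_mul hεC.le, show 1 / α * (β - n) = -((n - β) / α) by ring,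
        Real.div_rpow hε.le hC10.le, Real.rpow_neg hC10.le, div_inv_eq_mul, mul_comm]
    rw [h1]
    ring
  · rintro v ⟨hv, hvZ⟩
    exact hU1 _ (hτQ v hv hvZ)
  · rintro s v hvU ⟨hv, hvZ⟩ v' hvU' ⟨hv', hvZ'⟩
    obtain ⟨k, hk, hkk⟩ := hU2 s _ hvU (hτQ v hv hvZ) _ hvU' (hτQ v' hv' hvZ')
    obtain ⟨hz3, hzs⟩ := zp_mem hsm hv' hk
    have hle : 2 * C * L * ρ ^ α ≤ ε := by
      rw [hρα]
      calc 2 * C * L * (ε / C1) ≤ C1 * (ε / C1) :=
            mul_le_mul_of_nonneg_right (le_max_left _ _) hεC.le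
        _ = ε := by field_simp
    have hest : ∀ q ∈ K2, dist (φ' (q • φ'.symm v))
        (φ' (q • φ'.symm (φ' (k • φ'.symm v')))) ≤ ε := by
      intro q hq
      have h1 : q • φ'.symm v ∈ φ'.source := (hsm.2 q hq v (h24 hv)).1
      have h2 : (q * k) • φ'.symm v' ∈ φ'.source :=
        (hsm.2 (q * k) (K2.mul_mem hq hk) v' (h24 hv')).1
      rw [hzs, smul_smul]
      have h3 := hkk q (hsub hq)
      rw [hτφ v hv, hτφ v' hv'] at h3
      have h4 := hL _ h1 _ h2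
      rw [smul_smul, smul_smul] at h4
      calc dist (φ' (q • φ'.symm v)) (φ' ((q * k) • φ'.symm v')) ≤
            L * dist (φ ((s1 * q) • φ'.symm v)) (φ ((s1 * (q * k)) • φ'.symm v')) := h4
        _ ≤ L * (2 * C * ρ ^ α) := mul_le_mul_of_nonneg_left h3 hL0
        _ = 2 * C * L * ρ ^ α := by ring
        _ ≤ ε := hle
    refine ⟨?_, ?_⟩
    · have h1 := hF3 ε v (h24 hv) _ (h34 hz3) hest
      rwa [clo_inv hF1 hF2 hsm hv' hk] at h1
    · obtain ⟨ζ, hζ⟩ := clo_tw (zt_norm (p := p)) hΨ1 hΨ2 hsm hv' hk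
      refine ⟨ζ, fun i => ?_⟩
      have h1 := hΨ3 i ε v (h24 hv) _ (h34 hz3) hest
      rwa [hζ i, dist_eq_norm] at h1

/-- The local theorem: if the maps of a coset are uniformly Hölder near a piece of the closure of
the set of the points of infinite orbit, and the orbits are large, then a power acts trivially near
the piece. -/
theorem local_triv (hCIRC : S_CIRC) (hn : 1 ≤ n) [T2Space X] {S : Type} [Group S]
    [TopologicalSpace S] [IsTopologicalGroup S]
    [CompactSpace S] [T2Space S] [TotallyDisconnectedSpace S] [MulAction S X]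
    [ContinuousSMul S X] {p : ℕ} (hp : p.Prime)
    {φ : OpenPartialHomeomorph X (E n)} {g e s1 : S}
    (heg : e ∈ (Subgroup.zpowers g).topologicalClosure)
    (het : Tendsto (fun j : ℕ => e ^ p ^ j) atTop (𝓝 1))
    {B B2 P : Set (E n)} (hB1 : B ⊆ closedBall 0 1) (hB2o : IsOpen B2) (hB2t : B2 ⊆ φ.target)
    {α β C C' δ : ℝ} (hα : 0 < α) (hC' : 0 ≤ C') (hC : 0 ≤ C) (hδ : 0 < δ)
    (hαβ : (n : ℝ) < (n + 2) * α + β)
    (hs1 : ∀ v ∈ B2, s1 • φ.symm v ∈ φ.source)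
    (hK : ∀ k ∈ (Subgroup.zpowers e).topologicalClosure, ∀ v ∈ B ∩ P, ∀ v' ∈ B ∩ P,
      dist (φ ((s1 * k) • φ.symm v)) (φ ((s1 * k) • φ.symm v')) ≤ C * dist v v' ^ α)
    (hQ : ∀ k ∈ (Subgroup.zpowers e).topologicalClosure, ∀ v ∈ B2 ∩ P,
      k • φ.symm v ∈ φ.source ∧ φ (k • φ.symm v) ∈ B ∩ P)
    (hPZ : ∀ v ∈ B2, φ.symm v ∈ closure {x : X | InfOrbit g x} → v ∈ P)
    (hD : ∀ v ∈ B2 ∩ P, Dm φ e β C' δ v) {v1 : E n} (hv1 : v1 ∈ B2) :
    ∃ j : ℕ, ∀ᶠ x in 𝓝 (φ.symm v1), e ^ p ^ j • x = x := by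
  classical
  let A : Set (OpenPartialHomeomorph X (E n)) := {φ' | φ'.source ⊆ φ.source ∩ φ ⁻¹' B2 ∧
    ∃ L : ℝ, 0 ≤ L ∧ ∀ a ∈ φ'.source, ∀ a' ∈ φ'.source,
      dist (φ' a) (φ' a') ≤ L * dist (φ (s1 • a)) (φ (s1 • a'))}
  have hA : Stable n A := by
    rintro φ' ⟨h1, L, hL0, hL⟩ e ⟨L', hL'⟩
    have hsub : (φ'.trans e).source ⊆ φ'.source := by
      rw [OpenPartialHomeomorph.trans_source]
      exact inter_subset_left
    refine ⟨hsub.trans h1, |L'| * L, by positivity, fun a ha a' ha' => ?_⟩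
    have ha2 := ha
    have ha2' := ha'
    rw [OpenPartialHomeomorph.trans_source] at ha2 ha2'
    have e1 := (hL' (φ' a) ha2.2 (φ' a') ha2'.2).1
    have e2 := hL a (hsub ha) a' (hsub ha')
    calc dist ((φ'.trans e) a) ((φ'.trans e) a') ≤ L' * dist (φ' a) (φ' a') := e1
      _ ≤ |L'| * dist (φ' a) (φ' a') := mul_le_mul_of_nonneg_right (le_abs_self _) dist_nonneg
      _ ≤ |L'| * (L * dist (φ (s1 • a)) (φ (s1 • a'))) := by gcongr
      _ = _ := by ring
  have hO : IsOpen (φ.source ∩ φ ⁻¹' B2) := φ.isOpen_inter_preimage hB2o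
  have hx1 : φ.symm v1 ∈ RegA A := by
    refine ⟨((Homeomorph.smul s1).toOpenPartialHomeomorph.trans φ).restrOpen _ hO, ⟨?_, 1,
      zero_le_one, ?_⟩, ?_⟩
    · rw [OpenPartialHomeomorph.restrOpen_source]
      exact inter_subset_right
    · intro a _ a' _
      rw [one_mul]
      exact le_of_eq rfl
    · rw [OpenPartialHomeomorph.restrOpen_source, OpenPartialHomeomorph.trans_source]
      refine ⟨⟨mem_univ _, ?_⟩, φ.map_target (hB2t hv1), ?_⟩
      · show s1 • φ.symm v1 ∈ φ.source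
        exact hs1 v1 hv1
      · show φ (φ.symm v1) ∈ B2
        rw [φ.right_inv (hB2t hv1)]
        exact hv1
  obtain ⟨φ', ⟨hφs, L, hL0, hL⟩, hxφ', hφ'0, H0, hH0o, hH0s⟩ := start' hA (H := S) hx1
  have hH0c : IsClosed (H0 : Set S) := Subgroup.isClosed_of_isOpen H0 hH0o
  obtain ⟨j, hj⟩ : ∃ j : ℕ, e ^ p ^ j ∈ H0 :=
    (het.eventually (hH0o.mem_nhds H0.one_mem)).exists
  refine ⟨j, ?_⟩
  set r : ℕ := p ^ j with hr
  have hr0 : 0 < r := pow_pos hp.pos j
  have hKH : (Subgroup.zpowers (e ^ r)).topologicalClosure ≤ H0 :=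
    Subgroup.topologicalClosure_minimal _ ((Subgroup.zpowers_le).2 hj) hH0c
  have hsm : Small φ' ((Subgroup.zpowers (e ^ r)).topologicalClosure : Set S) :=
    ⟨hH0s.1, fun h hh => hH0s.2 h (hKH hh)⟩
  have hcomp : IsCompact ((Subgroup.zpowers (e ^ r)).topologicalClosure : Set S) :=
    (Subgroup.isClosed_topologicalClosure _).isCompact
  have hkp : Tendsto (fun i : ℕ => (e ^ r) ^ p ^ i) atTop (𝓝 1) := by
    have h1 := (tendsto_add_atTop_iff_nat j).2 het
    refine h1.congr fun i => ?_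
    rw [← pow_mul, hr, ← pow_add, add_comm]
  have hinfg : {x : X | InfOrbit (e ^ r) x} ⊆ {x : X | InfOrbit g x} := fun x hx =>
    inf_of_mem (Subgroup.pow_mem _ heg r) hx
  obtain ⟨A1, hA1, hA2, hA3, hA4, hA5, hA6, hA7⟩ := exists_avgop2 hcomp hsm
  obtain ⟨Bo, hBo1, hBo2, hBo3, hBo4, hBo5, hBo6, hBo7⟩ := exists_twop hp.pos hcomp hsm
  set F : E n → E n := A1 (ContinuousMap.id _) with hF
  have h34 : closedBall (0 : E n) 3 ⊆ closedBall 0 4 :=
    closedBall_subset_closedBall (by norm_num)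
  have h24 : closedBall (0 : E n) 2 ⊆ closedBall 0 4 :=
    closedBall_subset_closedBall (by norm_num)
  have hFfix : ∀ v ∈ closedBall (0 : E n) 4, e ^ r • φ'.symm v = φ'.symm v → F v = v := by
    intro v hv hgv
    refine hA5 _ _ v hv fun k hk => ?_
    rw [fix_closure hk hgv, φ'.right_inv (hsm.1 hv)]
    rfl
  -- the functions
  obtain ⟨en, hen⟩ := exists_surjective_nat (ℕ × ℚ)
  let h : ℕ → C(E n, ℂ) := fun m => tent (denseSeq (E n) (en m).1) ((en m).2 : ℝ)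
  set Qf : Set (E n) := {v | v ∈ closedBall (0 : E n) 2 ∧
    φ'.symm v ∈ closure {x : X | InfOrbit g x}} with hQf
  have hQfc : IsCompact Qf := by
    refine IsCompact.of_isClosed_subset (isCompact_closedBall (0 : E n) 2) ?_ fun v hv => hv.1
    exact (φ'.continuousOn_symm.mono (h24.trans hsm.1)).preimage_isClosed_of_isClosed
      isClosed_closedBall isClosed_closure
  have hQf4 : Qf ⊆ closedBall (0 : E n) 4 := fun v hv => h24 hv.1
  have hγ : (n - β) / α < (n : ℝ) + 2 := by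
    rw [div_lt_iff₀ hα]
    linarith
  have hae : ∀ᵐ y : E n, ∀ m : ℕ, ∀ᵐ t : Fin m → ℂ, ∀ u ∈ Qf, F u = y →
      (∃ i : Fin m, Bo (h i) u ≠ 0) → ∑ i, t i * Bo (h i) u ≠ 0 := by
    rw [ae_all_iff]
    intro m
    have hcov := cov_chart (p := p) hp.pos heg hB1 hα hC' hC hδ hK hQ hPZ hD hr0 hφs hL0 hL hsm
      (hA1 (ContinuousMap.id _)) (hA2 (ContinuousMap.id _)) hA7 (m := m)
      (Ψ := fun i => Bo (h i)) (fun i => hBo1 _) (fun i => hBo2 _) (fun i b v hv v' hv' hb =>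
        hBo7 _ b v hv v' hv' fun q hq => (tent_lip _ _ _ _).trans (hb q hq))
    exact nv hγ hQfc ((hA1 _).mono hQf4) (fun i => (hBo1 _).mono hQf4) hcov
  have hgood : GoodCirc φ' (e ^ r) p := by
    refine ⟨F, hA1 _, hA6, hA2 _, fun v hv => hFfix v (h34 hv), ?_⟩
    intro y hy
    rw [mem_closure_iff_nhds]
    intro W hW
    have hd := Measure.dense_of_ae hae
    obtain ⟨y', ⟨hy'W, hy'1⟩, hy'⟩ := mem_closure_iff_nhds.1 (hd y) _
      (inter_mem hW (isOpen_ball.mem_nhds hy))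
    refine ⟨y', hy'W, hy'1, ?_⟩
    by_cases hfix : e ^ r • φ'.symm y' = φ'.symm y'
    · exact Or.inl hfix
    right
    have hyn : ‖y'‖ < 1 := by simpa using hy'1
    set KZ : Set (E n) := {v | v ∈ closedBall (0 : E n) 3 ∧ F v = y' ∧
      φ'.symm v ∈ closure {x : X | InfOrbit (e ^ r) x}} with hKZ
    have hKZ2 : KZ ⊆ Qf := by
      rintro v ⟨hv3, hvF, hvZ⟩
      refine ⟨?_, closure_mono hinfg hvZ⟩
      have h1 := hA6 v (h34 hv3)
      rw [mem_closedBall, dist_zero_right]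
      have h2 : ‖v‖ ≤ ‖F v‖ + ‖F v - v‖ := by
        have := norm_sub_norm_le (F v) v
        have h3 := norm_sub_norm_le v (F v)
        rw [norm_sub_rev] at h3
        linarith
      have h3 : dist (F v) v < 1 / 4 := h1
      rw [dist_eq_norm] at h3
      rw [hvF] at h2 h3
      linarith
    have hKZc : IsCompact KZ := by
      have h1 : KZ = (closedBall (0 : E n) 3 ∩ φ'.symm ⁻¹' closure {x : X | InfOrbit (e ^ r) x}) ∩
          (closedBall (0 : E n) 3 ∩ F ⁻¹' {y'}) := by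
        ext v
        simp only [hKZ, mem_ofPred_eq, mem_inter_iff, mem_preimage, mem_singleton_iff]
        tauto
      rw [h1]
      refine IsCompact.of_isClosed_subset (isCompact_closedBall _ _) ?_
        (inter_subset_left.trans inter_subset_left)
      refine IsClosed.inter ?_ ?_
      · exact (φ'.continuousOn_symm.mono (h34.trans hsm.1)).preimage_isClosed_of_isClosed
          isClosed_closedBall isClosed_closure
      · exact ((hA1 _).mono h34).preimage_isClosed_of_isClosed isClosed_closedBall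
          isClosed_singleton
    have hcKZ : CompactSpace KZ := isCompact_iff_compactSpace.1 hKZc
    have hcov : ∀ v : KZ, ∃ m : ℕ, Bo (h m) v ≠ 0 := by
      intro v
      obtain ⟨hv3, hvF, hvZ⟩ := v.2
      have hne : e ^ r • φ'.symm (v : E n) ≠ φ'.symm v := by
        intro hfx
        have h1 := hFfix v (h34 hv3) hfx
        rw [hvF] at h1
        rw [h1] at hfix
        exact hfix hfx
      obtain ⟨a, q, haq⟩ := exists_tent hp hkp hsm hBo6 (h34 hv3) hne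
      obtain ⟨m, hm⟩ := hen (a, q)
      refine ⟨m, ?_⟩
      show Bo (tent (denseSeq (E n) (en m).1) ((en m).2 : ℝ)) v ≠ 0
      rw [hm]
      exact haq
    obtain ⟨T, hT⟩ := isCompact_univ.elim_finite_subcover (X := KZ)
      (fun m : ℕ => {v : KZ | Bo (h m) v ≠ 0}) (fun m => by
        have hc : Continuous (fun v : KZ => Bo (h m) v) :=
          (hBo1 (h m)).comp_continuous continuous_subtype_val fun v => h34 v.2.1
        exact isOpen_ne_fun hc continuous_const) (fun v _ => by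
        obtain ⟨m, hm⟩ := hcov v
        exact mem_iUnion.2 ⟨m, hm⟩)
    set m : ℕ := T.sup id + 1 with hm
    obtain ⟨t, ht⟩ := (hy' m).exists
    refine ⟨fun v => ∑ i : Fin m, t i * Bo (h i) v, ?_, ?_⟩
    · have h1 : ContinuousOn (fun v => ∑ i : Fin m, t i * Bo (h i) v) (closedBall (0 : E n) 4) :=
        continuousOn_finsetSum _ fun i _ => continuousOn_const.mul (hBo1 _)
      exact h1.mono fun v hv => h34 hv.1
    · intro v hv
      refine ⟨?_, ?_⟩
      · obtain ⟨j', hj'T, hj'⟩ : ∃ j ∈ T, Bo (h j) v ≠ 0 := by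
          have h1 := hT (mem_univ (⟨v, hv⟩ : KZ))
          simp only [mem_iUnion] at h1
          obtain ⟨j, hjT, hj⟩ := h1
          exact ⟨j, hjT, hj⟩
        have hjm : j' < m := Nat.lt_succ_of_le (Finset.le_sup (f := id) hj'T)
        exact ht v (hKZ2 hv) hv.2.1 ⟨⟨j', hjm⟩, hj'⟩
      · show ∑ i : Fin m, t i * Bo (h i) (φ' (e ^ r • φ'.symm v)) =
          _ * ∑ i : Fin m, t i * Bo (h i) v
        rw [Finset.mul_sum]
        refine Finset.sum_congr rfl fun i _ => ?_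
        rw [hBo2 _ v hv.1]
        ring
  have htriv := triv_of_good hCIRC hn hp hkp hcomp hsm hgood
  have hopen : IsOpen (φ'.source ∩ φ' ⁻¹' ball 0 1) := φ'.isOpen_inter_preimage isOpen_ball
  have hmem : φ.symm v1 ∈ φ'.source ∩ φ' ⁻¹' ball 0 1 := ⟨hxφ', by simp [hφ'0]⟩
  filter_upwards [hopen.mem_nhds hmem] with x hx
  have h1 := htriv (φ' x) hx.2
  rwa [φ'.left_inv hx.1] at h1

end

end Pool.Agent.H751.HSO
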