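import Pool.Graph.R_pool_sql_team_seeded_63374d34.N512.CC.Nv

/-!
# Null sets: maps into `ℝⁿ × ℂ` which are projectively close on the members of small coverings
-/

set_option autoImplicit false

open MeasureTheory Set Metric Filter Topology
open scoped ENNReal NNReal

namespace Pool.Agent.H751.HSO

open Pool.Agent.Y485.HS Pool.Agent.N512.CC Pool.Agent.N512.CC.Nv

/-- The set `Q` has for all small `ε` a covering by at most `c ε ^ (-γ)` sets on which `f` varies by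
at most `ε` and the vectors `Ψ` agree up to a factor and an error `ε`. -/
def Cov {n m : ℕ} (Q : Set (E n)) (f : E n → E n) (Ψ : Fin m → E n → ℂ) (c γ : ℝ) : Prop :=
  ∃ ε0 : ℝ, 0 < ε0 ∧ ∀ ε : ℝ, 0 < ε → ε < ε0 → ∃ (N : ℕ) (U : Fin N → Set (E n)),
    (N : ℝ) ≤ c * ε ^ (-γ) ∧ (∀ x ∈ Q, ∃ s, x ∈ U s) ∧
    ∀ s, ∀ x ∈ U s, x ∈ Q → ∀ x' ∈ U s, x' ∈ Q → dist (f x) (f x') ≤ ε ∧
      ∃ ζ : ℂ, ∀ i, ‖Ψ i x - ζ * Ψ i x'‖ ≤ ε

/-- quotients -/
theorem quot' {N N' D D' ζ : ℂ} {C₁ C₂ M₁ M₂ δ : ℝ} (hδ : 0 < δ)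
    (hM₁ : ‖N'‖ ≤ M₁) (hM₂ : ‖D'‖ ≤ M₂) (hD : δ ≤ ‖D‖) (hD' : δ ≤ ‖D'‖)
    (h1 : ‖N - ζ * N'‖ ≤ C₁) (h2 : ‖D - ζ * D'‖ ≤ C₂) :
    dist (-N / D) (-N' / D') ≤ (C₁ * M₂ + M₁ * C₂) / δ ^ 2 := by
  have d1 : D ≠ 0 := by
    intro h
    rw [h, norm_zero] at hD
    linarith
  have d2 : D' ≠ 0 := by
    intro h
    rw [h, norm_zero] at hD'
    linarith
  have e : -N / D - -N' / D' = -((N - ζ * N') * D' - N' * (D - ζ * D')) / (D * D') := by
    field_simp
    ring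
  rw [dist_eq_norm, e, norm_div, norm_neg, norm_mul]
  have hN : ‖(N - ζ * N') * D' - N' * (D - ζ * D')‖ ≤ C₁ * M₂ + M₁ * C₂ := by
    refine (norm_sub_le _ _).trans ?_
    rw [norm_mul, norm_mul]
    have a1 : ‖N - ζ * N'‖ * ‖D'‖ ≤ C₁ * M₂ :=
      mul_le_mul h1 hM₂ (norm_nonneg _) ((norm_nonneg _).trans h1)
    have a2 : ‖N'‖ * ‖D - ζ * D'‖ ≤ M₁ * C₂ :=
      mul_le_mul hM₁ h2 (norm_nonneg _) ((norm_nonneg _).trans hM₁)
    linarith
  have hDD : δ ^ 2 ≤ ‖D‖ * ‖D'‖ := by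
    rw [pow_two]
    exact mul_le_mul hD hD' hδ.le (norm_nonneg _)
  exact div_le_div₀ ((norm_nonneg _).trans hN) hN (by positivity) hDD

/-- a set with good coverings is null -/
theorem null_of_cov {n : ℕ} {S : Set (E n × ℂ)} {c K γ ε0 : ℝ} (hγ : γ < n + 2) (hK : 0 ≤ K)
    (hε0 : 0 < ε0)
    (h : ∀ ε : ℝ, 0 < ε → ε < ε0 → ∃ (N : ℕ) (U : Fin N → Set (E n × ℂ)),
      (N : ℝ) ≤ c * ε ^ (-γ) ∧ S ⊆ ⋃ s, U s ∧ ∀ s, ∀ x ∈ U s, ∀ x' ∈ U s, dist x x' ≤ K * ε) :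
    (volume : Measure (E n × ℂ)) S = 0 := by
  have hV : (volume : Measure (E n × ℂ)).IsAddHaarMeasure :=
    Measure.prod.instIsAddHaarMeasure (volume : Measure (E n)) (volume : Measure ℂ)
  have hfr : Module.finrank ℝ (E n × ℂ) = n + 2 := by
    rw [Module.finrank_prod, Complex.finrank_real_complex, finrank_euclideanSpace_fin]
  set V0 : ℝ≥0∞ := (volume : Measure (E n × ℂ)) (ball 0 1) with hV0
  have hV0f : V0 ≠ ∞ := measure_ball_lt_top.ne
  have hbound : ∀ ε : ℝ, 0 < ε → ε < ε0 → (volume : Measure (E n × ℂ)) S ≤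
      ENNReal.ofReal (c * K ^ (n + 2) * ε ^ ((n : ℝ) + 2 - γ)) * V0 := by
    intro ε hε hεε
    obtain ⟨N, U, hN, hcov, hd⟩ := h ε hε hεε
    have hU : ∀ s, (volume : Measure (E n × ℂ)) (U s) ≤
        ENNReal.ofReal ((K * ε) ^ (n + 2)) * V0 := by
      intro s
      rcases (U s).eq_empty_or_nonempty with he | ⟨x, hx⟩
      · rw [he, measure_empty]
        exact zero_le
      · have hsub : U s ⊆ closedBall x (K * ε) := fun x' hx' => hd s x' hx' x hx
        refine (measure_mono hsub).trans ?_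
        rw [Measure.addHaar_closedBall _ x (by positivity), hfr]
    calc (volume : Measure (E n × ℂ)) S ≤ ∑ s, (volume : Measure (E n × ℂ)) (U s) :=
          (measure_mono hcov).trans (measure_iUnion_fintype_le _ _)
      _ ≤ ∑ _s : Fin N, ENNReal.ofReal ((K * ε) ^ (n + 2)) * V0 :=
          Finset.sum_le_sum fun s _ => hU s
      _ = ENNReal.ofReal (N * (K * ε) ^ (n + 2)) * V0 := by
          rw [Finset.sum_const, Finset.card_univ, Fintype.card_fin, nsmul_eq_mul,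
            ENNReal.ofReal_mul (Nat.cast_nonneg _), ENNReal.ofReal_natCast, mul_assoc]
      _ ≤ ENNReal.ofReal (c * K ^ (n + 2) * ε ^ ((n : ℝ) + 2 - γ)) * V0 := by
          refine mul_le_mul' (ENNReal.ofReal_le_ofReal ?_) le_rfl
          have e1 : ε ^ ((n : ℝ) + 2 - γ) = ε ^ (-γ) * ε ^ (n + 2) := by
            rw [← Real.rpow_natCast ε (n + 2), ← Real.rpow_add hε]
            congr 1
            push_cast
            ring
          rw [e1, mul_pow]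
          have h0 : 0 ≤ K ^ (n + 2) * ε ^ (n + 2) := by positivity
          nlinarith [mul_le_mul_of_nonneg_right hN h0]
  have hlim : Tendsto (fun ε : ℝ => ENNReal.ofReal (c * K ^ (n + 2) * ε ^ ((n : ℝ) + 2 - γ)) * V0)
      (𝓝[>] 0) (𝓝 0) := by
    have h1 : Tendsto (fun ε : ℝ => c * K ^ (n + 2) * ε ^ ((n : ℝ) + 2 - γ)) (𝓝[>] 0) (𝓝 0) := by
      have h2 : Tendsto (fun ε : ℝ => ε ^ ((n : ℝ) + 2 - γ)) (𝓝[>] 0) (𝓝 0) := by
        have h3 : ContinuousAt (fun ε : ℝ => ε ^ ((n : ℝ) + 2 - γ)) 0 :=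
          Real.continuousAt_rpow_const _ _ (Or.inr (by linarith))
        have h4 : Tendsto (fun ε : ℝ => ε ^ ((n : ℝ) + 2 - γ)) (𝓝 0)
            (𝓝 ((0 : ℝ) ^ ((n : ℝ) + 2 - γ))) := h3
        rw [Real.zero_rpow (by linarith)] at h4
        exact h4.mono_left nhdsWithin_le_nhds
      have h5 := h2.const_mul (c * K ^ (n + 2))
      rwa [mul_zero] at h5
    have h6 : Tendsto (fun ε : ℝ => ENNReal.ofReal (c * K ^ (n + 2) * ε ^ ((n : ℝ) + 2 - γ)))
        (𝓝[>] 0) (𝓝 0) := by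
      have := (ENNReal.continuous_ofReal.tendsto 0).comp h1
      rwa [ENNReal.ofReal_zero] at this
    have h7 := ENNReal.Tendsto.mul_const h6 (Or.inr hV0f)
    rwa [zero_mul] at h7
  have hle : (volume : Measure (E n × ℂ)) S ≤ 0 := by
    refine ge_of_tendsto hlim ?_
    filter_upwards [Ioo_mem_nhdsGT hε0] with ε hε
    exact hbound ε hε.1 hε.2
  exact le_antisymm hle zero_le

theorem nullB' {n m : ℕ} {c γ : ℝ} (hγ : γ < n + 2) {Q : Set (E n)} {f : E n → E n}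
    {Ψ : Fin m → E n → ℂ} (hQ : IsCompact Q) (hfc : ContinuousOn f Q)
    (hΨc : ∀ i, ContinuousOn (Ψ i) Q) (hcov : Cov Q f Ψ c γ) (i : Fin m) (l : ℕ) :
    ∀ᵐ p : E n × (Fin m → ℂ) ∂(volume.prod volume), p ∉ B Q f Ψ i l := by
  obtain ⟨ε0, hε0, hcov⟩ := hcov
  have hcl := closedB hQ hfc hΨc i l
  have hL : ∀ p : E n × (Fin m → ℂ), ∀ᵐ q : E n × ℂ,
      p + Lm n m i q ∈ (B Q f Ψ i l)ᶜ := by
    intro p
    set s : Set (E n) := {x | x ∈ Q ∧ 1 / ((l : ℝ) + 1) ≤ ‖Ψ i x‖} with hs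
    set N : E n → ℂ := fun x => ∑ j, p.2 j * Ψ j x with hN
    set g : E n → E n × ℂ := fun x => (f x - p.1, -(N x) / Ψ i x) with hg
    have hδ : (0 : ℝ) < 1 / ((l : ℝ) + 1) := by positivity
    obtain ⟨M₂, hM₂0, hM₂⟩ := bdd hQ (hΨc i)
    have hNc : ContinuousOn N Q := continuousOn_finsetSum _ fun j _ =>
      continuousOn_const.mul (hΨc j)
    obtain ⟨M₁, hM₁0, hM₁⟩ := bdd hQ hNc
    set A : ℝ := ∑ j, ‖p.2 j‖ with hA
    have hA0 : 0 ≤ A := Finset.sum_nonneg fun j _ => norm_nonneg _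
    set K : ℝ := max 1 ((A * M₂ + M₁) / (1 / ((l : ℝ) + 1)) ^ 2) with hK
    have hnull : (volume : Measure (E n × ℂ)) (g '' s) = 0 := by
      refine null_of_cov (c := c) (K := K) hγ (le_max_of_le_left zero_le_one) hε0 ?_
      intro ε hε hεε
      obtain ⟨k, U, h1, h2, h3⟩ := hcov ε hε hεε
      refine ⟨k, fun t => g '' (U t ∩ s), h1, ?_, ?_⟩
      · rintro _ ⟨x, hx, rfl⟩
        obtain ⟨t, ht⟩ := h2 x hx.1
        exact mem_iUnion.2 ⟨t, x, ⟨ht, hx⟩, rfl⟩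
      · rintro t _ ⟨x, ⟨hx, hxs⟩, rfl⟩ _ ⟨x', ⟨hx', hxs'⟩, rfl⟩
        obtain ⟨h4, ζ, h5⟩ := h3 t x hx hxs.1 x' hx' hxs'.1
        rw [Prod.dist_eq]
        refine max_le ?_ ?_
        · show dist (f x - p.1) (f x' - p.1) ≤ _
          rw [dist_sub_right]
          refine h4.trans ?_
          have : 1 ≤ K := le_max_left _ _
          nlinarith
        · have hN1 : ‖N x - ζ * N x'‖ ≤ A * ε := by
            have e : N x - ζ * N x' = ∑ j, p.2 j * (Ψ j x - ζ * Ψ j x') := by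
              simp only [hN, mul_sub, Finset.sum_sub_distrib, Finset.mul_sum]
              congr 1
              refine Finset.sum_congr rfl fun j _ => ?_
              ring
            rw [e, hA, Finset.sum_mul]
            refine (norm_sum_le _ _).trans (Finset.sum_le_sum fun j _ => ?_)
            rw [norm_mul]
            exact mul_le_mul_of_nonneg_left (h5 j) (norm_nonneg _)
          have h6 := quot' (M₁ := M₁) (M₂ := M₂) hδ (hM₁ x' hxs'.1) (hM₂ x' hxs'.1) hxs.2 hxs'.2 hN1 (h5 i)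
          refine h6.trans ?_
          have h7 : (A * ε * M₂ + M₁ * ε) / (1 / ((l : ℝ) + 1)) ^ 2 =
              ((A * M₂ + M₁) / (1 / ((l : ℝ) + 1)) ^ 2) * ε := by ring
          rw [h7]
          exact mul_le_mul_of_nonneg_right (le_max_right _ _) hε.le
    refine measure_mono_null ?_ hnull
    intro q hqB
    have hqB' : p + Lm n m i q ∈ B Q f Ψ i l := by
      by_contra hcon
      exact hqB hcon
    obtain ⟨x, hx, h1, h2, h3⟩ := hqB'
    refine ⟨x, ⟨hx, h1⟩, ?_⟩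
    rw [Lm_apply] at h2 h3
    have h2' : f x = p.1 + q.1 := h2
    have h3' : ∑ j, (p.2 j + (Pi.single i q.2 : Fin m → ℂ) j) * Ψ j x = 0 := h3
    have h4 : N x + q.2 * Ψ i x = 0 := by
      have e : ∑ j, (p.2 j + (Pi.single i q.2 : Fin m → ℂ) j) * Ψ j x = N x + q.2 * Ψ i x := by
        simp only [add_mul, Finset.sum_add_distrib]
        congr 1
        rw [Finset.sum_eq_single i]
        · rw [Pi.single_eq_same]
        · intro j _ hj
          rw [Pi.single_eq_of_ne hj, zero_mul]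
        · intro h
          exact absurd (Finset.mem_univ i) h
      rw [← e]
      exact h3'
    have hΨ0 : Ψ i x ≠ 0 := by
      intro h
      rw [h, norm_zero] at h1
      linarith
    refine Prod.ext ?_ ?_
    · show f x - p.1 = q.1
      rw [h2', add_sub_cancel_left]
    · show -(N x) / Ψ i x = q.2
      rw [div_eq_iff hΨ0]
      linear_combination -h4
  exact ae_of i hcl.isOpen_compl.measurableSet hL

theorem nv {n m : ℕ} {c γ : ℝ} (hγ : γ < n + 2) {Q : Set (E n)} {f : E n → E n}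
    {Ψ : Fin m → E n → ℂ} (hQ : IsCompact Q) (hfc : ContinuousOn f Q)
    (hΨc : ∀ i, ContinuousOn (Ψ i) Q) (hcov : Cov Q f Ψ c γ) :
    ∀ᵐ y : E n, ∀ᵐ t : Fin m → ℂ, ∀ x ∈ Q, f x = y → (∃ i, Ψ i x ≠ 0) →
      ∑ i, t i * Ψ i x ≠ 0 := by
  have h1 : ∀ᵐ p : E n × (Fin m → ℂ) ∂(volume.prod volume), ∀ (i : Fin m) (l : ℕ),
      p ∉ B Q f Ψ i l := by
    rw [ae_all_iff]
    intro i
    rw [ae_all_iff]
    intro l
    exact nullB' hγ hQ hfc hΨc hcov i l
  have h2 := Measure.ae_ae_of_ae_prod h1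
  filter_upwards [h2] with y hy
  filter_upwards [hy] with t ht
  rintro x hx hxy ⟨i, hi⟩ h0
  obtain ⟨l, hl⟩ := exists_nat_one_div_lt (norm_pos_iff.2 hi)
  exact ht i l ⟨x, hx, hl.le, hxy, h0⟩

end Pool.Agent.H751.HSO
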