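import Pool.Agent.H751.HSO.Loc
import Pool.Agent.H751.HSO.Ban

/-!
# One element: uniform estimates near a point
-/

set_option autoImplicit false
set_option linter.unusedSectionVars false

open MeasureTheory Set Metric Filter Topology TopologicalSpace
open scoped ENNReal NNReal

namespace Pool.Agent.H751.HSO

open Pool.Agent.Y485.HS Pool.Agent.Y489.SP Pool.Agent.Y475.HS Pool.Agent.R775.HS
  Pool.Agent.R775.HC Pool.Agent.N512.HS Pool.Agent.N512.CC

theorem closed_of_sub {Y : Type} [TopologicalSpace Y] {P C : Set Y} (hP : IsClosed P)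
    (h : IsClosed (Subtype.val ⁻¹' C : Set P)) : IsClosed (C ∩ P) := by
  have h1 : C ∩ P = Subtype.val '' (Subtype.val ⁻¹' C : Set P) := by
    rw [Subtype.image_preimage_coe, inter_comm]
  rw [h1]
  exact hP.isClosedEmbedding_subtypeVal.isClosedMap _ h

theorem rat_pair {n : ℕ} {α β : ℝ} (hα : 0 < α) (h : (n : ℝ) < (n + 2) * α + β) :
    ∃ q1 q2 : ℚ, 0 < (q1 : ℝ) ∧ (q1 : ℝ) ≤ α ∧ (q2 : ℝ) ≤ β ∧
      (n : ℝ) < (n + 2) * q1 + q2 := by
  set m : ℝ := (n + 2) * α + β - n with hm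
  have hm0 : 0 < m := by linarith
  have hn2 : (0 : ℝ) < n + 2 := by positivity
  obtain ⟨q1, h1, h2⟩ := exists_rat_btwn (show max 0 (α - m / (2 * (n + 2))) < α by
    apply max_lt hα
    have : 0 < m / (2 * (n + 2)) := by positivity
    linarith)
  obtain ⟨q2, h3, h4⟩ := exists_rat_btwn (show β - m / 2 < β by linarith)
  refine ⟨q1, q2, lt_of_le_of_lt (le_max_left _ _) h1, h2.le, h4.le, ?_⟩
  have h5 : α - m / (2 * (n + 2)) < q1 := lt_of_le_of_lt (le_max_right _ _) h1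
  have h6 : ((n : ℝ) + 2) * (α - m / (2 * (n + 2))) < (n + 2) * q1 :=
    mul_lt_mul_of_pos_left h5 hn2
  have h7 : ((n : ℝ) + 2) * (α - m / (2 * (n + 2))) = (n + 2) * α - m / 2 := by
    field_simp
  linarith

theorem pow_closure {S : Type} [Group S] [TopologicalSpace S] [IsTopologicalGroup S] {g k : S}
    (hk : k ∈ (Subgroup.zpowers g).topologicalClosure) (l : ℕ) :
    k ^ l ∈ (Subgroup.zpowers (g ^ l)).topologicalClosure := by
  have hc : Continuous (fun x : S => x ^ l) := by fun_prop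
  have h1 : MapsTo (fun x : S => x ^ l) (Subgroup.zpowers g : Set S)
      (Subgroup.zpowers (g ^ l) : Set S) := by
    rintro _ ⟨z, rfl⟩
    refine ⟨z, ?_⟩
    show (g ^ l) ^ z = (g ^ z) ^ l
    rw [← zpow_natCast, ← zpow_natCast, ← zpow_mul, ← zpow_mul, mul_comm]
  have h2 := h1.closure hc
  rw [← Subgroup.topologicalClosure_coe, ← Subgroup.topologicalClosure_coe] at h2
  exact h2 hk

section
variable {n : ℕ} {X : Type} [TopologicalSpace X]

theorem dm_closed {S : Type} [Group S] [TopologicalSpace S] [IsTopologicalGroup S] [CompactSpace S]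
    [MulAction S X] [ContinuousSMul S X] {φ : OpenPartialHomeomorph X (E n)} {e : S}
    {P : Set (E n)} (hP : IsClosed P) (hPt : P ⊆ φ.target)
    (hs : ∀ k ∈ (Subgroup.zpowers e).topologicalClosure, ∀ v ∈ P, k • φ.symm v ∈ φ.source)
    (β C δ : ℝ) : IsClosed ({v | Dm φ e β C δ v} ∩ P) := by
  classical
  have hsp : CompactSpace ((Subgroup.zpowers e).topologicalClosure : Subgroup S) :=
    isCompact_iff_compactSpace.1 (Subgroup.isClosed_topologicalClosure _).isCompact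
  apply closed_of_sub hP
  have h1 : (Subtype.val ⁻¹' {v | Dm φ e β C δ v} : Set P) = ⋂ (ρ : ℝ) (_ : 0 < ρ) (_ : ρ < δ),
      {v : P | ∃ (N : ℕ) (κ : Fin N → S),
        (∀ a, κ a ∈ (Subgroup.zpowers e).topologicalClosure) ∧
        (∀ a b, a ≠ b → ρ ≤ dist (φ (κ a • φ.symm (v : E n))) (φ (κ b • φ.symm (v : E n)))) ∧
          ρ ^ (-β) ≤ C * N} := by
    ext v
    simp only [Dm, mem_preimage, mem_ofPred_eq, mem_iInter]
  rw [h1]
  refine isClosed_iInter fun ρ => isClosed_iInter fun hρ => isClosed_iInter fun _ => ?_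
  by_cases hN : ∃ N : ℕ, ρ ^ (-β) ≤ C * N
  swap
  · convert isClosed_empty (X := P)
    ext v
    simp only [mem_ofPred_eq, mem_empty_iff_false, iff_false]
    rintro ⟨N, κ, -, -, h3⟩
    exact hN ⟨N, h3⟩
  set c0 : ℕ := Nat.find hN with hc0
  let T : Set (P × (Fin c0 → ((Subgroup.zpowers e).topologicalClosure : Subgroup S))) :=
    {q | ∀ a b, a ≠ b → ρ ≤ dist (φ ((q.2 a : S) • φ.symm (q.1 : E n)))
      (φ ((q.2 b : S) • φ.symm (q.1 : E n)))}
  have hcont : ∀ a : Fin c0, Continuous (fun q : P × (Fin c0 →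
      ((Subgroup.zpowers e).topologicalClosure : Subgroup S)) =>
        φ ((q.2 a : S) • φ.symm (q.1 : E n))) := by
    intro a
    have h2 : Continuous (fun q : P × (Fin c0 →
        ((Subgroup.zpowers e).topologicalClosure : Subgroup S)) => φ.symm (q.1 : E n)) :=
      φ.continuousOn_symm.comp_continuous (continuous_subtype_val.comp continuous_fst)
        fun q => hPt q.1.2
    have h3 : Continuous (fun q : P × (Fin c0 →
        ((Subgroup.zpowers e).topologicalClosure : Subgroup S)) => (q.2 a : S)) :=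
      continuous_subtype_val.comp ((continuous_apply a).comp continuous_snd)
    exact φ.continuousOn.comp_continuous (h3.smul h2) fun q => hs _ (q.2 a).2 _ q.1.2
  have hT : IsClosed T := by
    have h2 : T = ⋂ (a : Fin c0) (b : Fin c0) (_ : a ≠ b),
        {q | ρ ≤ dist (φ ((q.2 a : S) • φ.symm (q.1 : E n)))
          (φ ((q.2 b : S) • φ.symm (q.1 : E n)))} := by
      ext q
      simp only [T, mem_ofPred_eq, mem_iInter]
    rw [h2]
    exact isClosed_iInter fun a => isClosed_iInter fun b => isClosed_iInter fun _ =>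
      isClosed_le continuous_const ((hcont a).dist (hcont b))
  have h2 : {v : P | ∃ (N : ℕ) (κ : Fin N → S),
        (∀ a, κ a ∈ (Subgroup.zpowers e).topologicalClosure) ∧
        (∀ a b, a ≠ b → ρ ≤ dist (φ (κ a • φ.symm (v : E n))) (φ (κ b • φ.symm (v : E n)))) ∧
          ρ ^ (-β) ≤ C * N} = Prod.fst '' T := by
    ext v
    constructor
    · rintro ⟨N, κ, h3, h4, h5⟩
      have hle : c0 ≤ N := Nat.find_min' hN h5
      refine ⟨(v, fun a => ⟨κ (Fin.castLE hle a), h3 _⟩), ?_, rfl⟩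
      intro a b hab
      exact h4 _ _ fun h => hab (Fin.castLE_injective hle h)
    · rintro ⟨⟨v', κ⟩, h3, rfl⟩
      exact ⟨c0, fun a => (κ a : S), fun a => (κ a).2, h3, Nat.find_spec hN⟩
  rw [h2]
  exact isClosedMap_fst_of_compactSpace _ hT

end

section
variable {n : ℕ} {X : Type} [MetricSpace X]

/-- `s` is `α`-Hölder at `x` along the infinite orbits -/
def HolP {S : Type} [Monoid S] [MulAction S X] (s : S) (α : ℝ) (x : X) : Prop :=
  ∃ C δ : ℝ, 0 < δ ∧ ∀ y, InfOrbit s y → dist y x < δ → dist (s • y) (s • x) ≤ C * dist y x ^ α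

/-- the orbits of `x` under the powers of `s ^ i` have lower box dimension at least `β` -/
def DimP {S : Type} [Monoid S] [MulAction S X] (s : S) (β : ℝ) (x : X) : Prop :=
  ∀ i : ℕ, 0 < i → ∃ C δ : ℝ, 0 < δ ∧ ∀ ρ : ℝ, 0 < ρ → ρ < δ → ∃ T : Finset ℕ,
    (∀ a ∈ T, ∀ b ∈ T, a ≠ b → ρ ≤ dist (s ^ (i * a) • x) (s ^ (i * b) • x)) ∧
      ρ ^ (-β) ≤ C * T.card

/-- the condition on one element -/
def RegO (n : ℕ) (X : Type) [MetricSpace X] {S : Type} [Group S] [MulAction S X] (s : S) : Prop :=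
  ∃ T : ℕ → Set X, (∀ i, IsClosed (T i)) ∧ (∀ i, IsTotallyDisconnected (T i)) ∧
    ∀ x ∈ RegA (BL n X), InfOrbit s x → (∀ i, x ∉ T i) →
      ∃ α β : ℝ, 0 < α ∧ (n : ℝ) < (n + 2) * α + β ∧ HolP s α x ∧ DimP s β x

/-- the Hölder condition in a chart -/
theorem hol_chart3 {S : Type} [Group S] [MulAction S X] {φ : OpenPartialHomeomorph X (E n)}
    {L : ℝ} (hL : ∀ a ∈ φ.source, ∀ b ∈ φ.source,
      dist (φ a) (φ b) ≤ L * dist a b ∧ dist a b ≤ L * dist (φ a) (φ b))
    {γ : S} {U : Set (E n)} (hUt : U ⊆ φ.target) (hγ : ∀ v ∈ U, γ • φ.symm v ∈ φ.source)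
    {v : E n} (hv : v ∈ U) {α q : ℝ} (hα : 0 < α) (hq : 0 < q) (hqα : q ≤ α)
    (hH : HolP γ α (φ.symm v)) :
    ∃ j : ℕ, ∀ w ∈ U, InfOrbit γ (φ.symm w) → dist w v < 1 / ((j : ℝ) + 1) →
      dist (φ (γ • φ.symm w)) (φ (γ • φ.symm v)) ≤ (j + 1) * dist w v ^ q := by
  obtain ⟨C, δ, hδ, h⟩ := hH
  set L' : ℝ := max L 1 with hL'
  have hL1 : 1 ≤ L' := le_max_right _ _
  have hL0 : 0 < L' := by linarith
  have hLL : ∀ t : ℝ, 0 ≤ t → L * t ≤ L' * t := fun t ht =>
    mul_le_mul_of_nonneg_right (le_max_left _ _) ht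
  obtain ⟨j, hj⟩ := exists_nat_gt (max (L' / δ) (L' * |C| * L' ^ α))
  have hj0 : (0 : ℝ) < (j : ℝ) + 1 := by positivity
  have hj1 : L' / δ < j := lt_of_le_of_lt (le_max_left _ _) hj
  have hj3 : L' * |C| * L' ^ α < j := lt_of_le_of_lt (le_max_right _ _) hj
  refine ⟨j, fun w hw hwI hwv => ?_⟩
  have hvs : φ.symm v ∈ φ.source := φ.map_target (hUt hv)
  have hws : φ.symm w ∈ φ.source := φ.map_target (hUt hw)
  have h1 : dist (φ.symm w) (φ.symm v) ≤ L' * dist w v := by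
    have h2 := (hL _ hws _ hvs).2
    rw [φ.right_inv (hUt hw), φ.right_inv (hUt hv)] at h2
    exact h2.trans (hLL _ dist_nonneg)
  have h2 : dist (φ.symm w) (φ.symm v) < δ := by
    rw [lt_div_iff₀ hj0] at hwv
    rw [div_lt_iff₀ hδ] at hj1
    have h3 : L' * (dist w v * (j + 1)) ≤ L' := by nlinarith
    have h4 : L' * dist w v * (j + 1) < δ * (j + 1) := by nlinarith
    have h5 : L' * dist w v < δ := lt_of_mul_lt_mul_right h4 hj0.le
    linarith
  have h3 := h _ hwI h2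
  have hd1 : dist w v ≤ 1 := by
    refine hwv.le.trans ?_
    rw [div_le_one hj0]
    have : (0 : ℝ) ≤ j := Nat.cast_nonneg j
    linarith
  calc dist (φ (γ • φ.symm w)) (φ (γ • φ.symm v))
      ≤ L' * dist (γ • φ.symm w) (γ • φ.symm v) :=
        ((hL _ (hγ w hw) _ (hγ v hv)).1).trans (hLL _ dist_nonneg)
    _ ≤ L' * (C * dist (φ.symm w) (φ.symm v) ^ α) := by gcongr
    _ ≤ L' * (|C| * (L' * dist w v) ^ α) := by
        gcongr
        exact le_abs_self _
    _ = L' * |C| * L' ^ α * dist w v ^ α := by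
        rw [Real.mul_rpow hL0.le dist_nonneg]
        ring
    _ ≤ (j + 1) * dist w v ^ q := by
        have h5 : dist w v ^ α ≤ dist w v ^ q :=
          Real.rpow_le_rpow_of_exponent_ge' dist_nonneg hd1 hq.le hqα
        have h6 : 0 ≤ dist w v ^ α := Real.rpow_nonneg dist_nonneg _
        have h7 : L' * |C| * L' ^ α ≤ j + 1 := by linarith
        exact mul_le_mul h7 h5 h6 hj0.le

/-- the dimension condition in a chart -/
theorem dim_chart {S : Type} [Group S] [TopologicalSpace S] [IsTopologicalGroup S] [MulAction S X]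
    {φ : OpenPartialHomeomorph X (E n)}
    {L : ℝ} (hL : ∀ a ∈ φ.source, ∀ b ∈ φ.source,
      dist (φ a) (φ b) ≤ L * dist a b ∧ dist a b ≤ L * dist (φ a) (φ b))
    {g1 γ : S} (hγ1 : γ ∈ (Subgroup.zpowers g1).topologicalClosure) {v : E n}
    (hs : ∀ k ∈ (Subgroup.zpowers g1).topologicalClosure, k • φ.symm v ∈ φ.source)
    {β q : ℝ} (hq : q ≤ β) (hD : DimP γ β (φ.symm v)) {l : ℕ} (hl : 0 < l) :
    ∃ j : ℕ, Dm φ (g1 ^ l) q (j + 1) (1 / ((j : ℝ) + 1)) v := by
  obtain ⟨C, δ, hδ, h⟩ := hD l hl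
  set L' : ℝ := max L 1 with hL'
  have hL1 : 1 ≤ L' := le_max_right _ _
  have hL0 : 0 < L' := by linarith
  obtain ⟨j, hj⟩ := exists_nat_gt (max (L' / δ) (L' ^ β * |C|))
  have hj0 : (0 : ℝ) < (j : ℝ) + 1 := by positivity
  have hj1 : L' / δ < j := lt_of_le_of_lt (le_max_left _ _) hj
  have hj2 : L' ^ β * |C| < j := lt_of_le_of_lt (le_max_right _ _) hj
  refine ⟨j, fun ρ hρ hρj => ?_⟩
  have hρ1 : ρ ≤ 1 := by
    refine hρj.le.trans ?_
    rw [div_le_one hj0]
    have : (0 : ℝ) ≤ j := Nat.cast_nonneg j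
    linarith
  have hρδ : L' * ρ < δ := by
    rw [lt_div_iff₀ hj0] at hρj
    rw [div_lt_iff₀ hδ] at hj1
    have h3 : L' * (ρ * (j + 1)) ≤ L' := by nlinarith
    have h4 : L' * ρ * (j + 1) < δ * (j + 1) := by nlinarith
    exact lt_of_mul_lt_mul_right h4 hj0.le
  obtain ⟨T, hT1, hT2⟩ := h (L' * ρ) (by positivity) hρδ
  have hmem : ∀ a : ℕ, γ ^ (l * a) ∈ (Subgroup.zpowers g1).topologicalClosure := fun a =>
    Subgroup.pow_mem _ hγ1 _
  refine ⟨T.card, fun a => γ ^ (l * (T.orderEmbOfFin rfl a)), ?_, ?_, ?_⟩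
  · intro a
    have h1 := pow_closure (Subgroup.pow_mem _ hγ1 (T.orderEmbOfFin rfl a)) l
    rwa [← pow_mul, mul_comm] at h1
  · intro a b hab
    have hne : (T.orderEmbOfFin rfl a) ≠ (T.orderEmbOfFin rfl b) := fun h =>
      hab ((T.orderEmbOfFin rfl).injective h)
    have h1 := hT1 _ (T.orderEmbOfFin_mem rfl a) _ (T.orderEmbOfFin_mem rfl b) hne
    have h2 := (hL _ (hs _ (hmem (T.orderEmbOfFin rfl a))) _
      (hs _ (hmem (T.orderEmbOfFin rfl b)))).2
    have h3 : L' * ρ ≤ L' * dist (φ (γ ^ (l * (T.orderEmbOfFin rfl a)) • φ.symm v))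
        (φ (γ ^ (l * (T.orderEmbOfFin rfl b)) • φ.symm v)) :=
      (h1.trans h2).trans (mul_le_mul_of_nonneg_right (le_max_left _ _) dist_nonneg)
    exact le_of_mul_le_mul_left h3 hL0
  · have h1 : ρ ^ (-q) ≤ ρ ^ (-β) :=
      Real.rpow_le_rpow_of_exponent_ge hρ hρ1 (by linarith)
    have h2 : ρ ^ (-β) = L' ^ β * (L' * ρ) ^ (-β) := by
      rw [Real.mul_rpow hL0.le hρ.le, ← mul_assoc, ← Real.rpow_add hL0, add_neg_cancel,
        Real.rpow_zero, one_mul]
    calc ρ ^ (-q) ≤ L' ^ β * (L' * ρ) ^ (-β) := h1.trans_eq h2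
      _ ≤ L' ^ β * (C * T.card) := by gcongr
      _ ≤ L' ^ β * (|C| * T.card) := by
          gcongr
          exact le_abs_self _
      _ = L' ^ β * |C| * T.card := by ring
      _ ≤ ((j : ℝ) + 1) * T.card := by
          gcongr
          linarith

/-- all orbits have dimension at least `β`, locally -/
def EB {S : Type} [Group S] [TopologicalSpace S] [IsTopologicalGroup S] [MulAction S X]
    (φ : OpenPartialHomeomorph X (E n)) (g1 : S) (β : ℝ) : Set (E n) :=
  {v | ∀ l : ℕ, 0 < l → ∃ j : ℕ, Dm φ (g1 ^ l) β (j + 1) (1 / ((j : ℝ) + 1)) v}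

/-- one element: uniform estimates near a point -/
theorem one_big (hn : 1 ≤ n) {S : Type} [Group S] [TopologicalSpace S] [IsTopologicalGroup S]
    [CompactSpace S] [T2Space S] [TotallyDisconnectedSpace S] [MulAction S X]
    [ContinuousSMul S X] {p : ℕ} (hp : p.Prime) {g : S}
    (hg : Tendsto (fun j : ℕ => g ^ p ^ j) atTop (𝓝 1)) {φ : OpenPartialHomeomorph X (E n)}
    (hφ : φ ∈ BL n X) {γ g1 : S} (hreg : RegO n X γ) (ht4 : closedBall (0 : E n) 4 ⊆ φ.target)
    (hγ1 : γ ∈ (Subgroup.zpowers g1).topologicalClosure)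
    (hγs : ∀ k ∈ (Subgroup.zpowers g1).topologicalClosure, ∀ v ∈ closedBall (0 : E n) 4,
      k • φ.symm v ∈ φ.source)
    (hγI : ∀ x : X, InfOrbit γ x ↔ InfOrbit g x) {P : Set (E n)} (hPc : IsClosed P)
    (hPb : P ⊆ closedBall 0 4)
    (hPZ : ∀ v ∈ ball (0 : E n) 1, v ∈ P ↔ φ.symm v ∈ closure {x : X | InfOrbit g x})
    (hPn : (ball (0 : E n) 1 ∩ P).Nonempty) :
    ∃ B ∈ countableBasis (E n), B ⊆ ball 0 1 ∧ ∃ (j : ℕ) (q1 q2 : ℚ), 0 < (q1 : ℝ) ∧
      (n : ℝ) < (n + 2) * q1 + q2 ∧ Big P (EB φ g1 (q2 : ℝ)) B ∧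
      ∀ v ∈ B ∩ P, ∀ v' ∈ B ∩ P, dist (φ (γ • φ.symm v)) (φ (γ • φ.symm v')) ≤
        (j + 1) * dist v v' ^ (q1 : ℝ) := by
  classical
  have hb4 : ball (0 : E n) 1 ⊆ closedBall 0 4 :=
    ball_subset_closedBall.trans (closedBall_subset_closedBall (by norm_num))
  have hbt : ball (0 : E n) 1 ⊆ φ.target := hb4.trans ht4
  have hinj : ∀ a ∈ ball (0 : E n) 1, ∀ b ∈ ball (0 : E n) 1, φ.symm a = φ.symm b → a = b := by
    intro a ha b hb hab
    rw [← φ.right_inv (hbt ha), hab, φ.right_inv (hbt hb)]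
  obtain ⟨T, hTc, hTd, hT⟩ := hreg
  have hγγ : ∀ v ∈ closedBall (0 : E n) 4, γ • φ.symm v ∈ φ.source := hγs γ hγ1
  have hfc : ContinuousOn (fun v => φ (γ • φ.symm v)) (closedBall 0 4) :=
    φ.continuousOn.comp ((φ.continuousOn_symm.mono ht4).const_smul γ) hγγ
  have hsc : Continuous (fun v : P => φ.symm (v : E n)) :=
    φ.continuousOn_symm.comp_continuous continuous_subtype_val fun v => ht4 (hPb v.2)
  -- the pieces
  let Hc : ℕ × ℚ → Set (E n) := fun q => {v | ∀ w ∈ ball (0 : E n) 1, InfOrbit γ (φ.symm w) →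
        dist w v < 1 / ((q.1 : ℝ) + 1) → dist (φ (γ • φ.symm w)) (φ (γ • φ.symm v)) ≤
          (q.1 + 1) * dist w v ^ (q.2 : ℝ)}
  let f : ℕ ⊕ ℕ ⊕ (ℕ × ℚ × ℚ) → Set (E n) := fun q => match q with
    | Sum.inl M => {v | g ^ (M + 1) • φ.symm v = φ.symm v}
    | Sum.inr (Sum.inl i) => {v | φ.symm v ∈ T i}
    | Sum.inr (Sum.inr (j, q1, q2)) => {v | (0 < (q1 : ℝ) ∧ (n : ℝ) < (n + 2) * q1 + q2) ∧
        v ∈ Hc (j, q1) ∧ v ∈ EB φ g1 (q2 : ℝ)}
  have hfU : ∀ v ∈ ball (0 : E n) 1 ∩ P, ∃ q, v ∈ f q := by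
    rintro v ⟨hv, hvP⟩
    by_cases hI : InfOrbit g (φ.symm v)
    swap
    · simp only [InfOrbit, not_forall, not_not] at hI
      obtain ⟨M, hM, h⟩ := hI
      refine ⟨Sum.inl (M - 1), ?_⟩
      show g ^ (M - 1 + 1) • φ.symm v = φ.symm v
      rw [Nat.sub_add_cancel hM]
      exact h
    by_cases hTi : ∃ i, φ.symm v ∈ T i
    · obtain ⟨i, hi⟩ := hTi
      exact ⟨Sum.inr (Sum.inl i), hi⟩
    push Not at hTi
    obtain ⟨α, β, hα, hαβ, hH, hD⟩ := hT _ ⟨φ, hφ, φ.map_target (hbt hv)⟩ ((hγI _).2 hI) hTi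
    obtain ⟨q1, q2, h1, h2, h3, h4⟩ := rat_pair hα hαβ
    obtain ⟨L, hL⟩ := hφ
    obtain ⟨j, hj⟩ := hol_chart3 hL hbt (fun u hu => hγγ u (hb4 hu)) hv hα h1 h2 hH
    refine ⟨Sum.inr (Sum.inr (j, q1, q2)), ⟨h1, h4⟩, hj, ?_⟩
    intro l hl
    exact dim_chart hL hγ1 (fun k hk => hγs k hk v (hb4 hv)) h3 hD hl
  obtain ⟨q, B1, hB1, hB1s, hbig⟩ := banach hPc (isOpen_ball (x := (0 : E n)) (ε := 1)) hPn f hfU
  have hB1o : IsOpen B1 := isOpen_of_mem_countableBasis hB1
  obtain ⟨v2, hv2B, hv2P⟩ := hbig.2.1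
  have hv2Z := (hPZ v2 (hB1s hv2B)).1 hv2P
  rcases q with M | i | ⟨j, q1, q2⟩
  · -- a power acts trivially
    exfalso
    have hcl : IsClosed ({v | g ^ (M + 1) • φ.symm v = φ.symm v} ∩ P) :=
      closed_of_sub hPc (isClosed_eq (hsc.const_smul _) hsc)
    have hpiece := hbig.closed hcl fun v _ hv => hv
    refine no_fix hn hp hg hB1o (hB1s.trans hbt) (Nat.succ_pos M) ?_ hv2B hv2Z
    intro C hC hCp hCZ hns w hw
    exact hpiece ⟨hC hw, (hPZ w (hB1s (hC hw))).2 (hCZ w hw)⟩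
  · -- totally disconnected
    exfalso
    have hcl : IsClosed ({v | φ.symm v ∈ T i} ∩ P) :=
      closed_of_sub hPc ((hTc i).preimage hsc)
    have hpiece := hbig.closed hcl fun v _ hv => hv
    refine no_fix hn hp hg hB1o (hB1s.trans hbt) one_pos ?_ hv2B hv2Z
    intro C hC hCp hCZ hns
    exfalso
    apply hns
    have h1 : (φ.symm '' C).Subsingleton := by
      refine hTd i _ ?_ (hCp.image _ (φ.continuousOn_symm.mono (hC.trans (hB1s.trans hbt))))
      rintro _ ⟨w, hw, rfl⟩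
      exact hpiece ⟨hC hw, (hPZ w (hB1s (hC hw))).2 (hCZ w hw)⟩
    intro a ha b hb
    exact hinj a (hB1s (hC ha)) b (hB1s (hC hb)) (h1 (mem_image_of_mem _ ha)
      (mem_image_of_mem _ hb))
  · -- Hölder
    obtain ⟨v3, hv3⟩ : ∃ v3, v3 ∈ f (Sum.inr (Sum.inr (j, q1, q2))) := by
      by_contra hcon
      push Not at hcon
      obtain ⟨j', B'', _, h2, ⟨w, hw⟩, h3⟩ := hbig.2.2 B1 hB1o subset_rfl hbig.2.1
        (fun _ => ∅) (fun _ => by rw [empty_inter]; exact isClosed_empty)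
        (fun v _ hvA => absurd hvA (hcon v))
      exact h3 hw
    obtain ⟨⟨hq1, hqq⟩, -, -⟩ := hv3
    have hHcl : IsClosed (Hc (j, q1) ∩ P) := by
      apply closed_of_sub hPc
      have h1 : (Subtype.val ⁻¹' (Hc (j, q1)) : Set P) = ⋂ (w : E n) (_ : w ∈ ball (0 : E n) 1)
          (_ : InfOrbit γ (φ.symm w)), {v : P | dist w v < 1 / ((j : ℝ) + 1) →
            dist (φ (γ • φ.symm w)) (φ (γ • φ.symm (v : E n))) ≤
            (j + 1) * dist w v ^ (q1 : ℝ)} := by
        ext v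
        simp only [Hc, mem_preimage, mem_ofPred_eq, mem_iInter]
      rw [h1]
      refine isClosed_iInter fun w => isClosed_iInter fun _ => isClosed_iInter fun _ => ?_
      have hd : Continuous (fun v : P => dist w (v : E n)) := by fun_prop
      refine isClosed_imp ?_ ?_
      · exact isOpen_lt hd continuous_const
      · refine isClosed_le ?_ ?_
        · refine continuous_const.dist ?_
          exact hfc.comp_continuous continuous_subtype_val fun v => hPb v.2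
        · exact continuous_const.mul (hd.rpow_const fun _ => Or.inr hq1.le)
    have hpiece := hbig.closed hHcl fun v _ hv => hv.2.1
    have hj0 : (0 : ℝ) < (j : ℝ) + 1 := by positivity
    obtain ⟨B, hB, hv2B', hBs⟩ := (isBasis_countableBasis (E n)).mem_nhds_iff.1
      (inter_mem (hB1o.mem_nhds hv2B)
        (ball_mem_nhds v2 (show (0 : ℝ) < 1 / ((j : ℝ) + 1) / 2 by positivity)))
    have hBo : IsOpen B := isOpen_of_mem_countableBasis hB
    have hBB1 : B ⊆ B1 := hBs.trans inter_subset_left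
    have hBb : B ⊆ ball 0 1 := hBB1.trans hB1s
    refine ⟨B, hB, hBb, j, q1, q2, hq1, hqq, (hbig.sub hBo hBB1 ⟨v2, hv2B', hv2P⟩).mono
      fun v _ hv => hv.2.2, ?_⟩
    intro w hw a ha
    have ha' := hpiece ⟨hBB1 ha.1, ha.2⟩
    -- approximation by points of infinite orbit
    have hwZ := (hPZ w (hBb hw.1)).1 hw.2
    have hwcl : w ∈ closure {w' | w' ∈ B ∧ InfOrbit γ (φ.symm w')} := by
      rw [mem_closure_iff_nhds]
      intro W hW
      have hwt := hbt (hBb hw.1)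
      have h1 : φ.source ∩ φ ⁻¹' (interior W ∩ B) ∈ 𝓝 (φ.symm w) := by
        refine (φ.isOpen_inter_preimage (isOpen_interior.inter hBo)).mem_nhds ?_
        refine ⟨φ.map_target hwt, ?_⟩
        rw [mem_preimage, φ.right_inv hwt]
        exact ⟨mem_interior_iff_mem_nhds.2 hW, hw.1⟩
      obtain ⟨x, ⟨hx1, hx2⟩, hxI⟩ := mem_closure_iff_nhds.1 hwZ _ h1
      refine ⟨φ x, interior_subset hx2.1, hx2.2, ?_⟩
      rw [φ.left_inv hx1]
      exact (hγI _).2 hxI
    have hw4 : closedBall (0 : E n) 4 ∈ 𝓝 w :=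
      mem_of_superset (isOpen_ball.mem_nhds (hBb hw.1)) hb4
    refine ContinuousWithinAt.closure_le
      (f := fun w : E n => dist (φ (γ • φ.symm w)) (φ (γ • φ.symm a)))
      (g := fun w : E n => (j + 1 : ℝ) * dist w a ^ (q1 : ℝ))
      hwcl ?_ ?_ ?_
    · have hca : ContinuousAt (fun w : E n => dist (φ (γ • φ.symm w)) (φ (γ • φ.symm a))) w :=
        (hfc.continuousAt hw4).dist continuousAt_const
      exact hca.continuousWithinAt
    · have hd : Continuous (fun w : E n => (j + 1 : ℝ) * dist w a ^ (q1 : ℝ)) :=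
        continuous_const.mul ((continuous_id.dist continuous_const).rpow_const
          fun _ => Or.inr hq1.le)
      exact hd.continuousAt.continuousWithinAt
    · rintro w' ⟨hw'B, hw'I⟩
      refine ha' w' (hBb hw'B) hw'I ?_
      have e1 := (hBs hw'B).2
      have e2 := (hBs ha.1).2
      rw [mem_ball] at e1 e2
      calc dist w' a ≤ dist w' v2 + dist a v2 := dist_triangle_right _ _ _
        _ < 1 / ((j : ℝ) + 1) := by linarith

end

end Pool.Agent.H751.HSO
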